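import Pool.Agent.Helper65.B54.Main

/-!
# The two ends: `α ≤ 216/625` and `α ≥ 3/5`
-/

namespace Pool.Agent.Helper65.B54

open Finset

theorem sum_cons {K : Type} [Fintype K] (n : ℕ) (f : (Fin (n + 1) → K) → ℝ) :
    ∑ κ : Fin (n + 1) → K, f κ = ∑ a : K, ∑ κ : Fin n → K, f (Fin.cons a κ) := by
  rw [← (Fin.consEquiv (fun _ => K)).sum_comp, Fintype.sum_prod_type]
  rfl

theorem sum_prod_pow {K : Type} [Fintype K] [DecidableEq K] (n : ℕ) (s : K → ℝ) :
    ∑ κ : Fin n → K, ∏ i, s (κ i) = (∑ k, s k) ^ n := by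
  have h := (Finset.prod_univ_sum (ι := Fin n) (κ := fun _ => K) (fun _ => (univ : Finset K))
    (fun _ k => s k)).symm
  simp only [Fintype.piFinset_univ, prod_const, card_univ, Fintype.card_fin] at h
  exact h

theorem sum_s3 (α γ : ℝ) : ∑ k, s3 α γ k = 1 := by
  rw [Fin.sum_univ_three]
  simp only [s3, Matrix.cons_val_zero, Matrix.cons_val_one, Matrix.cons_val]
  ring

theorem dead_low (α γ : ℝ) (hα : α ≤ 216 / 625) : Dead 2 α γ (R0 α γ) := by
  apply Dead.kill
  refine ⟨1, fun _ _ => 1, fun _ => α, fun _ => 1, fun _ _ => 1, fun _ => 0, ?_, ?_, ?_, ?_, ?_, ?_,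
    ?_, ?_⟩
  · intro _ _; norm_num
  · intro _ q _ _ hq
    have h := hq.2.1
    simp only [agg, id_eq, sum_ite_eq', mem_univ, if_true] at h
    rw [Fin.sum_univ_three]
    linarith
  · intro _; norm_num
  · intro _ _; norm_num
  · intro _; norm_num
  · intro κ _
    simp
  · simp only [one_mul]
    rw [sum_s3]
  · simp only [one_mul, zero_mul, sum_const_zero, add_zero]
    simp only [sum_const, card_univ, Fintype.card_fin, one_smul]
    rw [← mul_sum, sum_prod_pow, sum_s3]
    linarith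

/-- number of zeros -/
def nz {m : ℕ} (κ : Fin m → Fin 3) : ℕ := ∑ i, if κ i = 0 then 1 else 0

theorem nz_cons {m : ℕ} (a : Fin 3) (κ : Fin m → Fin 3) :
    nz (Fin.cons a κ : Fin (m + 1) → Fin 3) = (if a = 0 then 1 else 0) + nz κ := by
  unfold nz
  rw [Fin.sum_univ_succ]
  simp

/-- the mass of the tuples with exactly `j` zeros -/
noncomputable def mass (s : Fin 3 → ℝ) (m j : ℕ) : ℝ :=
  ∑ κ : Fin m → Fin 3, if nz κ = j then ∏ i, s (κ i) else 0

theorem mass_succ (s : Fin 3 → ℝ) (m j : ℕ) :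
    mass s (m + 1) (j + 1) = s 0 * mass s m j + (s 1 + s 2) * mass s m (j + 1) := by
  unfold mass
  rw [sum_cons, Fin.sum_univ_three]
  simp only [nz_cons, Fin.prod_univ_succ, Fin.cons_zero, Fin.cons_succ]
  rw [mul_sum, add_mul, mul_sum, mul_sum, add_assoc]
  congr 1
  · refine sum_congr rfl fun κ _ => ?_
    by_cases h : nz κ = j
    · rw [if_pos h, if_pos (by simp; omega)]
    · rw [if_neg h, if_neg (by simp; omega), mul_zero]
  · congr 1
    · refine sum_congr rfl fun κ _ => ?_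
      by_cases h : nz κ = j + 1
      · rw [if_pos h, if_pos (by simp; omega)]
      · rw [if_neg h, if_neg (by simp; omega), mul_zero]
    · refine sum_congr rfl fun κ _ => ?_
      by_cases h : nz κ = j + 1
      · rw [if_pos h, if_pos (by simp; omega)]
      · rw [if_neg h, if_neg (by simp; omega), mul_zero]

theorem mass_zero_right (s : Fin 3 → ℝ) (m : ℕ) :
    mass s (m + 1) 0 = (s 1 + s 2) * mass s m 0 := by
  unfold mass
  rw [sum_cons, Fin.sum_univ_three]
  have hA : ∀ κ : Fin m → Fin 3, (if nz (Fin.cons 0 κ : Fin (m + 1) → Fin 3) = 0 then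
      ∏ i, s ((Fin.cons 0 κ : Fin (m + 1) → Fin 3) i) else 0) = 0 := by
    intro κ
    rw [if_neg]
    rw [nz_cons]
    simp
  have hB : ∀ (a : Fin 3) (_ : a ≠ 0) (κ : Fin m → Fin 3),
      (if nz (Fin.cons a κ : Fin (m + 1) → Fin 3) = 0 then
      ∏ i, s ((Fin.cons a κ : Fin (m + 1) → Fin 3) i) else 0) =
      s a * (if nz κ = 0 then ∏ i, s (κ i) else 0) := by
    intro a ha κ
    rw [nz_cons, if_neg ha, zero_add, Fin.prod_univ_succ]
    simp only [Fin.cons_zero, Fin.cons_succ]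
    split_ifs
    · rfl
    · rw [mul_zero]
  rw [sum_congr rfl fun κ _ => hA κ, sum_congr rfl fun κ _ => hB 1 (by decide) κ,
    sum_congr rfl fun κ _ => hB 2 (by decide) κ, ← mul_sum, ← mul_sum, sum_const_zero]
  ring

theorem mass_nil (s : Fin 3 → ℝ) : mass s 0 0 = 1 := by simp [mass, nz]

theorem mass_nil_succ (s : Fin 3 → ℝ) (j : ℕ) : mass s 0 (j + 1) = 0 := by simp [mass, nz]

theorem mass_four_two (s : Fin 3 → ℝ) : mass s 4 2 = 6 * s 0 ^ 2 * (s 1 + s 2) ^ 2 := by
  have a1 : mass s 1 0 = (s 1 + s 2) * mass s 0 0 := mass_zero_right s 0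
  have a2 : mass s 1 1 = s 0 * mass s 0 0 + (s 1 + s 2) * mass s 0 1 := mass_succ s 0 0
  have a3 : mass s 1 2 = s 0 * mass s 0 1 + (s 1 + s 2) * mass s 0 2 := mass_succ s 0 1
  have b1 : mass s 2 0 = (s 1 + s 2) * mass s 1 0 := mass_zero_right s 1
  have b2 : mass s 2 1 = s 0 * mass s 1 0 + (s 1 + s 2) * mass s 1 1 := mass_succ s 1 0
  have b3 : mass s 2 2 = s 0 * mass s 1 1 + (s 1 + s 2) * mass s 1 2 := mass_succ s 1 1
  have c1 : mass s 3 1 = s 0 * mass s 2 0 + (s 1 + s 2) * mass s 2 1 := mass_succ s 2 0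
  have c2 : mass s 3 2 = s 0 * mass s 2 1 + (s 1 + s 2) * mass s 2 2 := mass_succ s 2 1
  have d : mass s 4 2 = s 0 * mass s 3 1 + (s 1 + s 2) * mass s 3 2 := mass_succ s 3 1
  have z0 : mass s 0 0 = 1 := mass_nil s
  have z1 : mass s 0 1 = 0 := mass_nil_succ s 0
  have z2 : mass s 0 2 = 0 := mass_nil_succ s 1
  rw [d, c1, c2, b1, b2, b3, a1, a2, a3, z0, z1, z2]
  ring

theorem dead_high (α γ : ℝ) (hα : 3 / 5 ≤ α) (hγ : 0 ≤ γ) (hαγ : α + γ ≤ 1) :
    Dead 2 α γ (R0 α γ) := by
  apply Dead.kill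
  refine ⟨1, fun _ _ => 1, fun _ => α, ![2, -1 / 2, -1 / 2],
    fun κ _ => if nz κ = 2 then 5 / 3 else 0, fun _ => 0, ?_, ?_, ?_, ?_, ?_, ?_, ?_, ?_⟩
  · intro _ _; norm_num
  · intro _ q _ _ hq
    have h := hq.2.1
    simp only [agg, id_eq, sum_ite_eq', mem_univ, if_true] at h
    rw [Fin.sum_univ_three]
    linarith
  · intro k
    fin_cases k <;> norm_num
  · intro κ _
    show (0 : ℝ) ≤ if nz κ = 2 then 5 / 3 else 0
    split_ifs <;> norm_num
  · intro _; norm_num
  · intro κ hκ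
    have h0 := hκ (fun k => k == 0) (by simp)
    -- count
    have hc : (univ.filter (fun i => (κ i == 0) = true)).card = nz κ := by
      rw [card_filter]
      unfold nz
      refine sum_congr rfl fun i _ => ?_
      simp
    rw [hc] at h0
    have hL : ∑ i, (![2, -1 / 2, -1 / 2] : Fin 3 → ℝ) (κ i) = (5 / 2) * nz κ - 5 / 2 := by
      have h1 : ∀ i, (![2, -1 / 2, -1 / 2] : Fin 3 → ℝ) (κ i) =
          (5 / 2) * ((if κ i = 0 then 1 else 0 : ℕ) : ℝ) - 1 / 2 := by
        intro i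
        generalize κ i = a
        fin_cases a <;> norm_num
      rw [sum_congr rfl fun i _ => h1 i, sum_sub_distrib, ← mul_sum]
      unfold nz
      push_cast
      simp
      norm_num
    have hrem : ∀ i : Fin 5, nz (i.removeNth κ) + (if κ i = 0 then 1 else 0) = nz κ := by
      intro i
      unfold nz
      rw [Fin.sum_univ_succAbove _ i, add_comm]
      rfl
    have hR : ∑ i : Fin 5, ∑ _c : Fin 1, (if nz (i.removeNth κ) = 2 then (5 / 3 : ℝ) else 0) * 1 =
        ∑ i : Fin 5, (if nz (i.removeNth κ) = 2 then (5 / 3 : ℝ) else 0) := by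
      simp
    rw [hL, add_zero, hR]
    have hcases : nz κ = 0 ∨ nz κ = 1 ∨ nz κ = 2 ∨ nz κ = 3 := by omega
    rcases hcases with h | h | h | h
    · rw [h]
      have : 0 ≤ ∑ i : Fin 5, (if nz (i.removeNth κ) = 2 then (5 / 3 : ℝ) else 0) :=
        sum_nonneg fun i _ => by split_ifs <;> norm_num
      norm_num
      linarith
    · rw [h]
      have : 0 ≤ ∑ i : Fin 5, (if nz (i.removeNth κ) = 2 then (5 / 3 : ℝ) else 0) :=
        sum_nonneg fun i _ => by split_ifs <;> norm_num
      norm_num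
      linarith
    · -- three positions that are not zero
      have h1 : ∀ i : Fin 5, (if nz (i.removeNth κ) = 2 then (5 / 3 : ℝ) else 0) =
          5 / 3 * (1 - ((if κ i = 0 then 1 else 0 : ℕ) : ℝ)) := by
        intro i
        have := hrem i
        by_cases hz : κ i = 0
        · simp only [hz, if_true] at this ⊢
          rw [if_neg (by omega)]
          norm_num
        · simp only [hz, if_false] at this ⊢
          rw [if_pos (by omega)]
          norm_num
      rw [sum_congr rfl fun i _ => h1 i, ← mul_sum, sum_sub_distrib]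
      have h2 : ∑ i, ((if κ i = 0 then 1 else 0 : ℕ) : ℝ) = nz κ := by
        unfold nz; push_cast; rfl
      rw [h2, h]
      simp
      norm_num
    · have h1 : ∀ i : Fin 5, (if nz (i.removeNth κ) = 2 then (5 / 3 : ℝ) else 0) =
          5 / 3 * ((if κ i = 0 then 1 else 0 : ℕ) : ℝ) := by
        intro i
        have := hrem i
        by_cases hz : κ i = 0
        · simp only [hz, if_true] at this ⊢
          rw [if_pos (by omega)]
          norm_num
        · simp only [hz, if_false] at this ⊢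
          rw [if_neg (by omega)]
          norm_num
      rw [sum_congr rfl fun i _ => h1 i, ← mul_sum]
      have h2 : ∑ i, ((if κ i = 0 then 1 else 0 : ℕ) : ℝ) = nz κ := by
        unfold nz; push_cast; rfl
      rw [h2, h]
      norm_num
  · rw [Fin.sum_univ_three]
    simp only [s3, Matrix.cons_val_zero, Matrix.cons_val_one, Matrix.cons_val]
    linarith
  · have hs : ∑ κ : Fin 4 → Fin 3, (∑ _c : Fin 1, (if nz κ = 2 then (5 / 3 : ℝ) else 0) * α) *
        ∏ i, s3 α γ (κ i) = 10 * α ^ 3 * (1 - α) ^ 2 := by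
      simp only [sum_const, card_univ, Fintype.card_fin, one_smul]
      have h1 : ∀ κ : Fin 4 → Fin 3, (if nz κ = 2 then (5 / 3 : ℝ) else 0) * α *
          ∏ i, s3 α γ (κ i) = 5 / 3 * α * (if nz κ = 2 then ∏ i, s3 α γ (κ i) else 0) := by
        intro κ
        split_ifs <;> ring
      rw [sum_congr rfl fun κ _ => h1 κ, ← mul_sum]
      have h2 := mass_four_two (s3 α γ)
      unfold mass at h2
      rw [h2]
      simp only [s3, Matrix.cons_val_zero, Matrix.cons_val_one, Matrix.cons_val]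
      ring
    rw [hs, Fin.sum_univ_three]
    simp only [zero_mul, sum_const_zero, add_zero]
    simp only [s3, Matrix.cons_val_zero, Matrix.cons_val_one, Matrix.cons_val]
    have h1 : α ≤ 1 := by linarith
    nlinarith [mul_nonneg (sub_nonneg.mpr hα) (sub_nonneg.mpr h1),
      mul_nonneg (mul_nonneg (sub_nonneg.mpr hα) (sub_nonneg.mpr hα)) (sub_nonneg.mpr h1),
      mul_nonneg (mul_nonneg (mul_nonneg (sub_nonneg.mpr hα) (sub_nonneg.mpr hα))
        (sub_nonneg.mpr h1)) (sub_nonneg.mpr h1), sq_nonneg (α * (1 - α)), sq_nonneg (α - 3 / 5),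
      mul_nonneg (sub_nonneg.mpr hα) (sq_nonneg (α * (1 - α)))]

theorem Kill.mono {M M' : ℝ} (h : M ≤ M') {K : Type} [Fintype K] [DecidableEq K] {par : K → Fin 3}
    {bdd : List (K → Bool)} {s : K → ℝ} {R : Set (Fin 3 → ℝ)} (hk : Kill M par bdd s R) :
    Kill M' par bdd s R := by
  obtain ⟨n, w, l, μ, y, u, h1, h2, h3, h4⟩ := hk
  exact ⟨n, w, l, μ, y, u, h1, h2, fun k => (h3 k).trans h, h4⟩

theorem Dead.mono {M M' : ℝ} (h : M ≤ M') {α γ : ℝ} {R : Set (Fin 3 → ℝ)} (hd : Dead M α γ R) :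
    Dead M' α γ R := by
  induction hd with
  | kill R hk => exact Dead.kill R (hk.mono h)
  | step R f t hk _ ih => exact Dead.step R f t (fun z hz hf => (hk z hz hf).mono h) ih

/-- It suffices to treat `216/625 ≤ α ≤ 3/5`. -/
theorem turan_of_middle (M : ℝ) (hM : 2 ≤ M)
    (h : ∀ α γ : ℝ, 216 / 625 ≤ α → α ≤ 3 / 5 → 0 ≤ γ → γ ≤ α → α + γ ≤ 1 →
      Dead M α γ (R0 α γ)) :
    Filter.Tendsto (fun n : ℕ => (ex 5 (book 5 4) n : ℝ) / (n.choose 5 : ℝ)) Filter.atTop
      (nhds (216 / 625)) := by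
  refine turan_of_dead M (by linarith) fun α γ hγ hγα hs => ?_
  rcases le_total α (216 / 625) with h1 | h1
  · exact (dead_low α γ h1).mono hM
  rcases le_total (3 / 5) α with h2 | h2
  · exact (dead_high α γ h2 hγ hs).mono hM
  · exact h α γ h1 h2 hγ hγα hs

end Pool.Agent.Helper65.B54
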