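import Pool.Agent.Helper65.B54.Ends

/-!
# Areas of the parameter region (half-open in `γ`)
-/

namespace Pool.Agent.Helper65.B54

/-- all points of the region with `a0 ≤ D α ≤ a1` and `g0 < D γ ≤ g1` are dead -/
def Area (M : ℝ) (D : ℕ) (a0 a1 g0 g1 : ℤ) : Prop :=
  ∀ α γ : ℝ, (a0 : ℝ) ≤ D * α → D * α ≤ a1 → (g0 : ℝ) < D * γ → D * γ ≤ g1 → 0 ≤ γ → γ ≤ α →
    α + γ ≤ 1 → α ≤ 3 / 5 → Dead M α γ (R0 α γ)

theorem Area.of {M : ℝ} {D : ℕ} {a0 a1 g0 g1 : ℤ} {b0 b1 h0 h1 : ℕ}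
    (h : ∀ α γ : ℝ, (b0 : ℝ) ≤ D * α → D * α ≤ b1 → (h0 : ℝ) ≤ D * γ → D * γ ≤ h1 → 0 ≤ γ →
      γ ≤ α → α + γ ≤ 1 → α ≤ 3 / 5 → Dead M α γ (R0 α γ))
    (ha : (b0 : ℤ) ≤ a0) (hb : a1 ≤ b1) (hc : (h0 : ℤ) ≤ g0 ∨ h0 = 0) (hd : g1 ≤ h1) :
    Area M D a0 a1 g0 g1 := by
  intro α γ h1' h2 h3 h4 h5 h6 h7 h8
  have ha' : (b0 : ℝ) ≤ a0 := by exact_mod_cast ha
  have hb' : (a1 : ℝ) ≤ b1 := by exact_mod_cast hb
  have hd' : (g1 : ℝ) ≤ h1 := by exact_mod_cast hd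
  refine h α γ (by linarith) (by linarith) ?_ (by linarith) h5 h6 h7 h8
  rcases hc with hc | hc
  · have hc' : (h0 : ℝ) ≤ g0 := by exact_mod_cast hc
    linarith
  · rw [hc, Nat.cast_zero]
    positivity

theorem Area.splitA {M : ℝ} {D : ℕ} {a0 a1 g0 g1 : ℤ} (p : ℤ) (hl : Area M D a0 p g0 g1)
    (hr : Area M D p a1 g0 g1) : Area M D a0 a1 g0 g1 := by
  intro α γ h1 h2 h3 h4 h5 h6 h7 h8
  rcases le_total (D * α) p with h | h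
  · exact hl α γ h1 h h3 h4 h5 h6 h7 h8
  · exact hr α γ h h2 h3 h4 h5 h6 h7 h8

theorem Area.splitG {M : ℝ} {D : ℕ} {a0 a1 g0 g1 : ℤ} (p : ℤ) (hl : Area M D a0 a1 g0 p)
    (hr : Area M D a0 a1 p g1) : Area M D a0 a1 g0 g1 := by
  intro α γ h1 h2 h3 h4 h5 h6 h7 h8
  rcases le_or_gt (D * γ) p with h | h
  · exact hl α γ h1 h2 h3 h h5 h6 h7 h8
  · exact hr α γ h1 h2 h h4 h5 h6 h7 h8

/-- no point with `γ ≤ α` -/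
theorem Area.diag {M : ℝ} {D : ℕ} {a0 a1 g0 g1 : ℤ} (h : a1 ≤ g0) : Area M D a0 a1 g0 g1 := by
  intro α γ h1 h2 h3 h4 h5 h6 h7 h8
  exfalso
  have h9 : (a1 : ℝ) ≤ g0 := by exact_mod_cast h
  have h10 : (D : ℝ) * γ ≤ D * α := mul_le_mul_of_nonneg_left h6 (Nat.cast_nonneg _)
  linarith

/-- no point with `α + γ ≤ 1` -/
theorem Area.sum {M : ℝ} {D : ℕ} {a0 a1 g0 g1 : ℤ} (h : (D : ℤ) ≤ a0 + g0) :
    Area M D a0 a1 g0 g1 := by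
  intro α γ h1 h2 h3 h4 h5 h6 h7 h8
  exfalso
  have h9 : (D : ℝ) ≤ a0 + g0 := by exact_mod_cast h
  have h10 : (D : ℝ) * (α + γ) ≤ D * 1 := mul_le_mul_of_nonneg_left h7 (Nat.cast_nonneg _)
  linarith

/-- the area `216/625 ≤ α ≤ 3/5`, with `D = 16000` -/
theorem turan_of_area (M : ℝ) (hM : 2 ≤ M) (h : Area M 16000 5520 9600 (-1) 9600) :
    Filter.Tendsto (fun n : ℕ => (ex 5 (book 5 4) n : ℝ) / (n.choose 5)) Filter.atTop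
      (nhds (216 / 625)) := by
  refine turan_of_middle M hM ?_
  intro α γ h1 h2 h3 h4 h5
  refine h α γ ?_ ?_ ?_ ?_ h3 h4 h5 h2 <;> push_cast <;> linarith

end Pool.Agent.Helper65.B54
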