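import Pool.Agent.Helper65.B54.Degree

/-!
# The ray lemma in terms of cells
-/

namespace Pool.Agent.Helper65.B54

open Finset

section
variable {N : ℕ} {K C : Type} [Fintype K] [DecidableEq K] [Fintype C]

/-- normalised cell size -/
noncomputable def size (cell : Fin N → K) (k : K) : ℝ :=
  ((univ.filter (fun v => cell v = k)).card : ℝ) / N

theorem size_nonneg (cell : Fin N → K) (k : K) : 0 ≤ size cell k := by
  unfold size; positivity

theorem sum_size (cell : Fin N → K) (hN : 0 < N) : ∑ k, size cell k = 1 := by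
  unfold size
  rw [← sum_div]
  have h : ∑ k, ((univ.filter (fun v => cell v = k)).card : ℝ) = N := by
    have h1 := card_eq_sum_card_fiberwise (f := cell) (s := (univ : Finset (Fin N))) (t := univ)
      (fun _ _ => mem_coe.mpr (mem_univ _))
    rw [card_univ, Fintype.card_fin] at h1
    exact_mod_cast h1.symm
  rw [h]
  exact div_self (by positivity)

/-- sums over tuples of a function of the cell types -/
theorem sum_tuples (m : ℕ) (cell : Fin N → K) (hN : 0 < N) (g : (Fin m → K) → ℝ) :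
    ∑ T : Fin m → Fin N, g (fun i => cell (T i)) =
      (N : ℝ) ^ m * ∑ κ : Fin m → K, g κ * ∏ i, size cell (κ i) := by
  classical
  have h1 : ∑ T : Fin m → Fin N, g (fun i => cell (T i)) =
      ∑ κ : Fin m → K, ∑ T ∈ univ.filter (fun T : Fin m → Fin N => (fun i => cell (T i)) = κ), g κ := by
    rw [← sum_fiberwise_of_maps_to (s := (univ : Finset (Fin m → Fin N))) (t := univ)
      (g := fun T => (fun i => cell (T i))) (fun _ _ => mem_univ _)]
    refine sum_congr rfl fun κ _ => ?_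
    refine sum_congr rfl fun T hT => ?_
    rw [(mem_filter.mp hT).2]
  rw [h1, mul_sum]
  refine sum_congr rfl fun κ _ => ?_
  rw [sum_const, nsmul_eq_mul]
  have h2 : (univ.filter (fun T : Fin m → Fin N => (fun i => cell (T i)) = κ)) =
      Fintype.piFinset (fun i => univ.filter (fun v => cell v = κ i)) := by
    ext T
    simp only [mem_filter, mem_univ, true_and, Fintype.mem_piFinset]
    exact funext_iff
  rw [h2, Fintype.card_piFinset]
  have hNR : (N : ℝ) ≠ 0 := by positivity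
  have h3 : ∀ i, size cell (κ i) = ((univ.filter (fun v => cell v = κ i)).card : ℝ) / N := fun i => rfl
  simp only [h3]
  rw [prod_div_distrib]
  simp only [prod_const, card_univ, Fintype.card_fin]
  push_cast
  field_simp

/-- **Ray lemma, cell form.** -/
theorem ray_cells {G : Finset (Finset (Fin N))} (hN : 0 < N) (π ε : ℝ) (hε : 0 ≤ ε)
    (hreg : ∀ (μ : Fin N → ℝ) (M : ℝ), (∀ v, |μ v| ≤ M) →
        π * (N : ℝ) ^ 4 * ∑ v, μ v - ε * M * (N : ℝ) ^ 5 ≤ ∑ v, μ v * (odeg G v : ℝ))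
    (cell : Fin N → K) (allowed : (Fin 5 → K) → Prop) (bad : Finset (Fin 5 → Fin N))
    (hallowed : ∀ F ∈ OE G, F ∉ bad → allowed (fun i => cell (F i)))
    (w : C → K → ℝ) (hw : ∀ c k, 0 ≤ w c k) (h : C → ℝ)
    (hcut : ∀ c (T : Fin 4 → Fin N), ∑ v ∈ Nb G T, w c (cell v) ≤ h c * N)
    (μ : K → ℝ) (M : ℝ) (hM : ∀ k, |μ k| ≤ M)
    (y : (Fin 4 → K) → C → ℝ) (hy : ∀ κ c, 0 ≤ y κ c)
    (u : (Fin 5 → K) → ℝ) (hu : ∀ κ, 0 ≤ u κ)
    (hfeas : ∀ κ, allowed κ →
      ∑ i, μ (κ i) ≤ ∑ i : Fin 5, ∑ c, y (i.removeNth κ) c * w c (κ i) + u κ) :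
    5 * π * ∑ k, μ k * size cell k ≤
      5 * ∑ κ : Fin 4 → K, (∑ c, y κ c * h c) * ∏ i, size cell (κ i) +
      ∑ κ : Fin 5 → K, u κ * ∏ i, size cell (κ i) + 5 * ε * M + 5 * M * (bad.card / (N : ℝ) ^ 5) := by
  classical
  have hM0 : 0 ≤ M := by
    have : Nonempty (Fin N) := ⟨⟨0, hN⟩⟩
    exact (abs_nonneg _).trans (hM (cell ⟨0, hN⟩))
  have hNR : (0 : ℝ) < N := by exact_mod_cast hN
  have key := ray G (fun v => μ (cell v)) (fun T v => ∑ c, y (fun i => cell (T i)) c * w c (cell v))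
    (fun T => ∑ c, y (fun i => cell (T i)) c * h c * N) (fun F => u (fun i => cell (F i))) (5 * M) bad
    (by
      intro T
      rw [sum_comm]
      refine sum_le_sum fun c _ => ?_
      rw [← mul_sum]
      rw [mul_assoc]
      exact mul_le_mul_of_nonneg_left (hcut c T) (hy _ _))
    (fun F => hu _) (by positivity)
    (by
      intro F hF hb
      exact hfeas _ (hallowed F hF hb))
    (by
      intro F _
      have h1 : ∑ i, μ (cell (F i)) ≤ 5 * M := by
        calc ∑ i, μ (cell (F i)) ≤ ∑ _i : Fin 5, M := sum_le_sum fun i _ => (le_abs_self _).trans (hM _)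
          _ = 5 * M := by simp
      have h2 : 0 ≤ ∑ i : Fin 5, ∑ c, y (fun j => cell (i.removeNth F j)) c * w c (cell (F i)) :=
        sum_nonneg fun i _ => sum_nonneg fun c _ => mul_nonneg (hy _ _) (hw _ _)
      have h3 := hu (fun i => cell (F i))
      linarith)
  have hr := hreg (fun v => μ (cell v)) M (fun v => hM _)
  -- rewrite the sums over tuples
  have e1 : ∑ v, μ (cell v) = N * ∑ k, μ k * size cell k := by
    have := sum_tuples 1 cell hN (fun κ => μ (κ 0))
    have h1 : ∑ T : Fin 1 → Fin N, μ (cell (T 0)) = ∑ v, μ (cell v) :=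
      (Equiv.funUnique (Fin 1) (Fin N)).sum_comp (fun v => μ (cell v))
    have h2 : ∑ κ : Fin 1 → K, μ (κ 0) * ∏ i, size cell (κ i) = ∑ k, μ k * size cell k := by
      rw [← (Equiv.funUnique (Fin 1) K).sum_comp (fun k => μ k * size cell k)]
      refine sum_congr rfl fun κ _ => ?_
      simp
    rw [← h1, this, h2, pow_one]
  have e2 : ∑ T : Fin 4 → Fin N, ∑ c, y (fun i => cell (T i)) c * h c * N =
      N * ((N : ℝ) ^ 4 * ∑ κ : Fin 4 → K, (∑ c, y κ c * h c) * ∏ i, size cell (κ i)) := by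
    rw [← sum_tuples 4 cell hN (fun κ => ∑ c, y κ c * h c), mul_sum]
    refine sum_congr rfl fun T _ => ?_
    rw [mul_sum]
    refine sum_congr rfl fun c _ => ?_
    ring
  have e3 : ∑ F : Fin 5 → Fin N, u (fun i => cell (F i)) =
      (N : ℝ) ^ 5 * ∑ κ : Fin 5 → K, u κ * ∏ i, size cell (κ i) := sum_tuples 5 cell hN u
  rw [e1] at hr
  rw [e2, e3] at key
  have hfin : (N : ℝ) ^ 5 * (5 * π * ∑ k, μ k * size cell k) ≤ (N : ℝ) ^ 5 *
      (5 * ∑ κ : Fin 4 → K, (∑ c, y κ c * h c) * ∏ i, size cell (κ i) +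
      ∑ κ : Fin 5 → K, u κ * ∏ i, size cell (κ i) + 5 * ε * M + 5 * M * (bad.card / (N : ℝ) ^ 5)) := by
    have h5 : (N : ℝ) ^ 5 * (5 * M * (bad.card / (N : ℝ) ^ 5)) = 5 * M * bad.card := by
      field_simp
    rw [mul_add, mul_add, h5, mul_add]
    nlinarith [key, hr]
  exact le_of_mul_le_mul_left hfin (by positivity)

end

end Pool.Agent.Helper65.B54
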