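import Mathlib

/-!
# Books `B_{k,m}`, copies, Turán numbers
-/

namespace Pool.Agent.Helper65.B54

open Finset

/-- The `k`-graph `G` contains a copy of `H` (as a not necessarily induced subgraph): there is an
injective map of the vertices of `H` that sends every edge of `H` to an edge of `G`. -/
def HasCopy {W V : Type} [DecidableEq V] (H : Finset (Finset W)) (G : Finset (Finset V)) : Prop :=
  ∃ f : W → V, Function.Injective f ∧ ∀ e ∈ H, e.image f ∈ G

/-- The vertices of the book `B_{k,m}`: the `k - 1` vertices of `S`, the `m` vertices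
`x_1, ..., x_m`, and the `k - m` further vertices of the last edge. -/
abbrev BookV (k m : ℕ) : Type := Fin (k - 1) ⊕ (Fin m ⊕ Fin (k - m))

/-- The book `B_{k,m}`: the edges `S ∪ {x_i}` and the edge `{x_1, ..., x_m} ∪ Y`. -/
def book (k m : ℕ) : Finset (Finset (BookV k m)) :=
  insert (univ.image Sum.inr)
    (univ.image fun i : Fin m => insert (Sum.inr (Sum.inl i)) (univ.image Sum.inl))

/-- The Turán number `ex(n, H)` for `k`-graphs: the largest number of edges of a `k`-graph on `n`
vertices with no copy of `H`. -/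
noncomputable def ex {W : Type} (k : ℕ) (H : Finset (Finset W)) (n : ℕ) : ℕ :=
  sSup {m | ∃ G : Finset (Finset (Fin n)), (∀ e ∈ G, e.card = k) ∧ ¬ HasCopy H G ∧ G.card = m}

/-- a `5`-graph without a copy of `B_{5,4}` -/
def Free {V : Type} [DecidableEq V] (G : Finset (Finset V)) : Prop :=
  (∀ e ∈ G, e.card = 5) ∧ ¬ HasCopy (book 5 4) G

section
variable {V : Type} [DecidableEq V]

/-- A `B_{5,4}` in `G` given by `S`, `X = {x_1, ..., x_4}` and `y`. -/
theorem hasCopy_of {G : Finset (Finset V)} {S X : Finset V} {y : V} (hS : S.card = 4)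
    (hX : X.card = 4) (hd : Disjoint S X) (hyS : y ∉ S) (hyX : y ∉ X)
    (h1 : ∀ x ∈ X, insert x S ∈ G) (h2 : insert y X ∈ G) : HasCopy (book 5 4) G := by
  have eS : Fin (5 - 1) ≃ S := (Fintype.equivFinOfCardEq (by simp [hS])).symm
  have eX : Fin 4 ≃ X := (Fintype.equivFinOfCardEq (by simp [hX])).symm
  let f : BookV 5 4 → V := Sum.elim (fun i => (eS i : V)) (Sum.elim (fun i => (eX i : V)) (fun _ => y))
  have hdis : ∀ a ∈ S, ∀ b ∈ X, a ≠ b := fun a ha b hb h => by
    exact (Finset.disjoint_left.mp hd ha) (h ▸ hb)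
  have himS : (univ.image Sum.inl : Finset (BookV 5 4)).image f = S := by
    ext v
    simp only [mem_image, mem_univ, true_and, f]
    constructor
    · rintro ⟨_, ⟨i, rfl⟩, rfl⟩
      exact (eS i).2
    · intro hv
      exact ⟨_, ⟨eS.symm ⟨v, hv⟩, rfl⟩, by simp⟩
  refine ⟨f, ?_, ?_⟩
  · intro a b hab
    rcases a with i | i | i <;> rcases b with j | j | j
    · simp only [Sum.elim_inl, f] at hab
      exact congrArg _ (eS.injective (Subtype.ext hab))
    · simp only [Sum.elim_inl, Sum.elim_inr, f] at hab
      exact absurd hab (hdis _ (eS i).2 _ (eX j).2)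
    · simp only [Sum.elim_inl, Sum.elim_inr, f] at hab
      exact absurd (hab ▸ (eS i).2) hyS
    · simp only [Sum.elim_inl, Sum.elim_inr, f] at hab
      exact absurd hab.symm (hdis _ (eS j).2 _ (eX i).2)
    · simp only [Sum.elim_inl, Sum.elim_inr, f] at hab
      exact congrArg _ (congrArg _ (eX.injective (Subtype.ext hab)))
    · simp only [Sum.elim_inl, Sum.elim_inr, f] at hab
      exact absurd (hab ▸ (eX i).2) hyX
    · simp only [Sum.elim_inl, Sum.elim_inr, f] at hab
      exact absurd (hab ▸ (eS j).2) hyS
    · simp only [Sum.elim_inl, Sum.elim_inr, f] at hab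
      exact absurd (hab ▸ (eX j).2) hyX
    · have : i = j := by
        have h1 : (5 - 4 : ℕ) = 1 := rfl
        exact Fin.ext (by have := i.2; have := j.2; omega)
      rw [this]
  · intro e he
    simp only [book, mem_insert, mem_image, mem_univ, true_and] at he
    rcases he with rfl | ⟨i, rfl⟩
    · have : (univ.image Sum.inr : Finset (BookV 5 4)).image f = insert y X := by
        ext v
        simp only [mem_image, mem_univ, true_and, mem_insert, f]
        constructor
        · rintro ⟨_, ⟨i, rfl⟩, rfl⟩
          rcases i with i | i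
          · right; exact (eX i).2
          · left; rfl
        · rintro (rfl | hv)
          · exact ⟨_, ⟨Sum.inr 0, rfl⟩, rfl⟩
          · exact ⟨_, ⟨Sum.inl (eX.symm ⟨v, hv⟩), rfl⟩, by simp⟩
      rw [this]; exact h2
    · rw [image_insert, himS]
      exact h1 _ (eX i).2

/-- Conversely a copy gives `S`, `X`, `y`. -/
theorem exists_of_hasCopy {G : Finset (Finset V)} (h : HasCopy (book 5 4) G) :
    ∃ (S X : Finset V) (y : V), S.card = 4 ∧ X.card = 4 ∧ Disjoint S X ∧ y ∉ S ∧ y ∉ X ∧
      (∀ x ∈ X, insert x S ∈ G) ∧ insert y X ∈ G := by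
  obtain ⟨f, hf, hG⟩ := h
  let fS : Fin (5 - 1) → V := fun i => f (Sum.inl i)
  let fX : Fin 4 → V := fun i => f (Sum.inr (Sum.inl i))
  have hfS : Function.Injective fS := fun a b hab => by
    have := hf hab; exact Sum.inl.inj this
  have hfX : Function.Injective fX := fun a b hab => by
    have := hf hab; exact Sum.inl.inj (Sum.inr.inj this)
  refine ⟨univ.image fS, univ.image fX, f (Sum.inr (Sum.inr 0)), ?_, ?_, ?_, ?_, ?_, ?_, ?_⟩
  · rw [card_image_of_injective _ hfS]; simp
  · rw [card_image_of_injective _ hfX]; simp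
  · rw [Finset.disjoint_left]
    intro a ha hb
    simp only [mem_image, mem_univ, true_and] at ha hb
    obtain ⟨i, rfl⟩ := ha
    obtain ⟨j, hj⟩ := hb
    have := hf hj
    simp at this
  · intro ha
    simp only [mem_image, mem_univ, true_and] at ha
    obtain ⟨i, hi⟩ := ha
    have := hf hi
    simp at this
  · intro ha
    simp only [mem_image, mem_univ, true_and] at ha
    obtain ⟨i, hi⟩ := ha
    have := hf hi
    simp at this
  · intro x hx
    simp only [mem_image, mem_univ, true_and] at hx
    obtain ⟨i, rfl⟩ := hx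
    have h1 := hG (insert (Sum.inr (Sum.inl i)) (univ.image Sum.inl))
      (by simp only [book, mem_insert, mem_image, mem_univ, true_and]; right; exact ⟨i, rfl⟩)
    rw [image_insert, image_image] at h1
    exact h1
  · have h1 := hG (univ.image Sum.inr) (by simp only [book, mem_insert, true_or])
    have : (univ.image Sum.inr : Finset (BookV 5 4)).image f =
        insert (f (Sum.inr (Sum.inr 0))) (univ.image fX) := by
      ext v
      simp only [mem_image, mem_univ, true_and, mem_insert, fX]
      constructor
      · rintro ⟨_, ⟨i, rfl⟩, rfl⟩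
        rcases i with i | i
        · right; exact ⟨i, rfl⟩
        · left
          have : i = 0 := Fin.ext (by have := i.2; simp)
          rw [this]
      · rintro (rfl | ⟨i, rfl⟩)
        · exact ⟨_, ⟨Sum.inr 0, rfl⟩, rfl⟩
        · exact ⟨_, ⟨Sum.inl i, rfl⟩, rfl⟩
    rw [← this]; exact h1

end

end Pool.Agent.Helper65.B54
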