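import Pool.Agent.Helper65.B54.Ray

/-!
# Ordered degrees; near-regular graphs in normalised form
-/

namespace Pool.Agent.Helper65.B54

open Finset

section
variable {V : Type} [DecidableEq V] [Fintype V]

theorem card_image_eq (s : Finset V) (hs : s.card = 4) :
    (univ.filter (fun T : Fin 4 → V => univ.image T = s)).card = 24 := by
  classical
  have h1 : Fintype.card (Fin 4 ≃ s) = 24 := by
    rw [Fintype.card_equiv (Fintype.equivFinOfCardEq (by simp [hs])).symm]
    simp [Nat.factorial]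
  rw [← h1, ← Finset.card_univ]
  symm
  apply card_bij (fun (e : Fin 4 ≃ s) _ => fun i => (e i : V))
  · intro e _
    simp only [mem_filter, mem_univ, true_and]
    ext v
    simp only [mem_image, mem_univ, true_and]
    constructor
    · rintro ⟨i, rfl⟩; exact (e i).2
    · intro hv; exact ⟨e.symm ⟨v, hv⟩, by simp⟩
  · intro a _ b _ hab
    ext i
    exact congrFun hab i
  · intro T hT
    simp only [mem_filter, mem_univ, true_and] at hT
    have hinj : Function.Injective T := by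
      have h2 : (univ.image T).card = (univ : Finset (Fin 4)).card := by rw [hT, hs]; simp
      have h := Finset.card_image_iff.mp h2
      intro a b hab
      exact h (mem_coe.mpr (mem_univ a)) (mem_coe.mpr (mem_univ b)) hab
    have hmem : ∀ i, T i ∈ s := fun i => by rw [← hT]; exact mem_image_of_mem _ (mem_univ _)
    let f : Fin 4 → s := fun i => ⟨T i, hmem i⟩
    have hf : Function.Bijective f := by
      rw [Fintype.bijective_iff_injective_and_card]
      refine ⟨fun a b hab => hinj (congrArg Subtype.val hab), by simp [hs]⟩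
    exact ⟨Equiv.ofBijective f hf, mem_univ _, rfl⟩

theorem odeg_eq {G : Finset (Finset V)} (hG : ∀ e ∈ G, e.card = 5) (v : V) :
    odeg G v = 24 * deg G v := by
  classical
  have h1 : (univ.filter (fun T : Fin 4 → V => v ∈ Nb G T)) =
      (G.filter (fun e => v ∈ e)).biUnion
        (fun e => univ.filter (fun T : Fin 4 → V => univ.image T = e.erase v)) := by
    ext T
    simp only [mem_filter, mem_univ, true_and, mem_biUnion, mem_Nb]
    constructor
    · intro h
      refine ⟨_, ⟨h, mem_insert_self _ _⟩, ?_⟩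
      rw [erase_insert]
      intro hv
      have h2 := hG _ h
      rw [insert_eq_of_mem hv] at h2
      have h3 : (univ.image T).card ≤ 4 := card_image_le.trans (by simp)
      omega
    · rintro ⟨e, ⟨he, hve⟩, hT⟩
      rw [hT, insert_erase hve]
      exact he
  unfold odeg
  rw [h1, card_biUnion]
  · rw [sum_const_nat (m := 24)]
    · rw [deg]; ring
    · intro e he
      rw [mem_filter] at he
      apply card_image_eq
      rw [card_erase_of_mem he.2, hG _ he.1]
  · intro a ha b hb hab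
    rw [Function.onFun, disjoint_left]
    intro T hTa hTb
    simp only [mem_filter, mem_univ, true_and] at hTa hTb
    apply hab
    rw [mem_coe, mem_filter] at ha hb
    rw [← insert_erase ha.2, ← insert_erase hb.2, ← hTa, ← hTb]

end

/-- Near-regular free graphs, normalised form. -/
theorem near_regular (ε : ℝ) (hε : 0 < ε) (n0 : ℕ) :
    ∃ N ≥ n0, 0 < N ∧ ∃ G : Finset (Finset (Fin N)), Free G ∧
      ∀ (μ : Fin N → ℝ) (M : ℝ), (∀ v, |μ v| ≤ M) →
        piB * (N : ℝ) ^ 4 * ∑ v, μ v - ε * M * (N : ℝ) ^ 5 ≤ ∑ v, μ v * (odeg G v : ℝ) := by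
  set δ : ℝ := ε / 5 with hδ
  have hδ0 : 0 < δ := by positivity
  -- choose n large
  obtain ⟨n1, hn1⟩ := exists_nat_gt ((piB + 1) * 20 / δ)
  obtain ⟨n, hn, G, hf, hdeg, hcard⟩ := exists_near_regular δ hδ0 (max n0 (max n1 20))
  have hn0 : n0 ≤ n := le_trans (le_max_left _ _) hn
  have hn1' : n1 ≤ n := le_trans (le_trans (le_max_left _ _) (le_max_right _ _)) hn
  have hn20 : 20 ≤ n := le_trans (le_trans (le_max_right _ _) (le_max_right _ _)) hn
  refine ⟨n + 1, by omega, by omega, G, hf, ?_⟩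
  set N : ℝ := ((n + 1 : ℕ) : ℝ) with hN
  have hNn : N = (n : ℝ) + 1 := by rw [hN]; push_cast; ring
  have hnR : (20 : ℝ) ≤ n := by exact_mod_cast hn20
  have hNpos : 0 < N := by rw [hNn]; linarith
  have hpi := piB_nonneg
  have hbig : (piB + 1) * 20 ≤ δ * N := by
    have h1 : (n1 : ℝ) ≤ n := by exact_mod_cast hn1'
    have h2 : (piB + 1) * 20 / δ < N := by rw [hNn]; linarith
    rw [div_lt_iff₀ hδ0] at h2
    linarith
  -- choose 4
  have hc4 : 24 * (n.choose 4 : ℝ) = n * (n - 1) * (n - 2) * (n - 3) := by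
    have h1 := Nat.descFactorial_eq_factorial_mul_choose n 4
    have h2 : (n.descFactorial 4 : ℝ) = 24 * (n.choose 4 : ℝ) := by
      rw [h1]; push_cast; norm_num [Nat.factorial]
    rw [← h2]
    rw [Nat.descFactorial_eq_prod_range]
    simp only [prod_range_succ, prod_range_zero, one_mul, Nat.sub_zero]
    push_cast [Nat.cast_sub (show 1 ≤ n by omega), Nat.cast_sub (show 2 ≤ n by omega),
      Nat.cast_sub (show 3 ≤ n by omega)]
    ring
  have hc5 : 120 * ((n + 1).choose 5 : ℝ) = (n + 1) * n * (n - 1) * (n - 2) * (n - 3) := by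
    have h1 : (n + 1) * n.choose 4 = (n + 1).choose 5 * 5 := Nat.add_one_mul_choose_eq n 4
    have h2 : ((n : ℝ) + 1) * (n.choose 4 : ℝ) = ((n + 1).choose 5 : ℝ) * 5 := by exact_mod_cast h1
    have h3 : 120 * ((n + 1).choose 5 : ℝ) = ((n : ℝ) + 1) * (24 * (n.choose 4 : ℝ)) := by linarith
    rw [h3, hc4]; ring
  have hlow : N ^ 4 - 10 * N ^ 3 ≤ 24 * (n.choose 4 : ℝ) := by
    rw [hc4, hNn]
    nlinarith [mul_nonneg (show (0:ℝ) ≤ n - 20 by linarith) (show (0:ℝ) ≤ n by linarith)]
  have hup : 24 * (n.choose 4 : ℝ) ≤ N ^ 4 := by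
    rw [hc4, hNn]
    nlinarith [mul_nonneg (show (0:ℝ) ≤ n - 20 by linarith) (show (0:ℝ) ≤ n by linarith),
      mul_nonneg (mul_nonneg (show (0:ℝ) ≤ n by linarith) (show (0:ℝ) ≤ n by linarith)) (show (0:ℝ) ≤ n by linarith)]
  have hdeg' : ∀ v, (piB - 2 * δ) * N ^ 4 ≤ (odeg G v : ℝ) := by
    intro v
    have h1 := hdeg v
    have h2 : (odeg G v : ℝ) = 24 * (deg G v : ℝ) := by
      rw [odeg_eq hf.1]; push_cast; ring
    rw [h2]
    have h3 : (piB - δ) * (24 * (n.choose 4 : ℝ)) ≤ 24 * (deg G v : ℝ) := by nlinarith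
    refine le_trans ?_ h3
    have h4 : piB * (N ^ 4 - 10 * N ^ 3) ≤ piB * (24 * (n.choose 4 : ℝ)) :=
      mul_le_mul_of_nonneg_left hlow hpi
    have h5 : δ * (24 * (n.choose 4 : ℝ)) ≤ δ * N ^ 4 := mul_le_mul_of_nonneg_left hup hδ0.le
    have h6 : piB * 10 * N ^ 3 ≤ δ * N ^ 4 := by
      have : piB * 10 ≤ δ * N := by nlinarith
      nlinarith [pow_pos hNpos 3]
    nlinarith
  have hsum : (∑ v, (odeg G v : ℝ)) ≤ (piB + δ) * N ^ 5 := by
    have h1 : (∑ v, (odeg G v : ℝ)) = 120 * (G.card : ℝ) := by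
      have h2 := sum_deg hf.1
      have h3 : ∑ v, (odeg G v : ℝ) = 24 * ((∑ v, deg G v : ℕ) : ℝ) := by
        push_cast
        rw [mul_sum]
        refine sum_congr rfl fun v _ => ?_
        rw [odeg_eq hf.1]; push_cast; ring
      rw [h3, h2]; push_cast; ring
    rw [h1]
    have h4 : 120 * (G.card : ℝ) ≤ (piB + δ) * (120 * ((n + 1).choose 5 : ℝ)) := by nlinarith
    refine h4.trans (mul_le_mul_of_nonneg_left ?_ (by linarith))
    have : 120 * ((n + 1).choose 5 : ℝ) = N * (24 * (n.choose 4 : ℝ)) := by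
      rw [hc5, hc4, hNn]; ring
    rw [this]
    nlinarith
  intro μ M hM
  have hM0 : 0 ≤ M := (abs_nonneg _).trans (hM 0)
  have h1 : ∑ v, μ v * ((odeg G v : ℝ) - (piB - 2 * δ) * N ^ 4) ≥
      ∑ v, (-M) * ((odeg G v : ℝ) - (piB - 2 * δ) * N ^ 4) := by
    refine sum_le_sum fun v _ => ?_
    have h2 := hdeg' v
    have h3 := (abs_le.mp (hM v)).1
    nlinarith
  rw [← mul_sum] at h1
  simp only [mul_sub, sum_sub_distrib] at h1
  rw [← sum_mul] at h1
  simp only [sum_const, card_univ, Fintype.card_fin, nsmul_eq_mul] at h1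
  have h4 : ∑ v, μ v ≤ M * N := by
    calc ∑ v, μ v ≤ ∑ v : Fin (n + 1), M := sum_le_sum fun v _ => (le_abs_self _).trans (hM v)
      _ = M * N := by simp [hN]; ring
  have h5 : M * (∑ v, (odeg G v : ℝ)) ≤ M * ((piB + δ) * N ^ 5) := mul_le_mul_of_nonneg_left hsum hM0
  have h6 : δ * N ^ 4 * ∑ v, μ v ≤ δ * N ^ 4 * (M * N) :=
    mul_le_mul_of_nonneg_left h4 (by positivity)
  have hε' : ε = 5 * δ := by rw [hδ]; ring
  rw [hε']
  have h7 : M * (N * ((piB - 2 * δ) * N ^ 4)) = M * (piB - 2 * δ) * N ^ 5 := by ring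
  have h8 : (∑ v, μ v) * ((piB - 2 * δ) * N ^ 4) = piB * N ^ 4 * (∑ v, μ v) - 2 * (δ * N ^ 4 * ∑ v, μ v) := by
    ring
  rw [← hN] at h1
  nlinarith [h1, h5, h6, h7, h8]

end Pool.Agent.Helper65.B54
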