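import Pool.Agent.Helper65.B54.Cells

/-!
# Extremal choices of neighbourhoods

A configuration is a near-extremal, near-regular graph with a partition of its vertices into cells;
`Kill` is a certificate (dual vector) that bounds the density, `Dead` a chain of extremal choices.
-/

namespace Pool.Agent.Helper65.B54

open Finset

/-- the profile that `q` has with respect to the three basic cells -/
def agg {K : Type} [Fintype K] (par : K → Fin 3) (q : K → ℝ) (i : Fin 3) : ℝ :=
  ∑ k, if par k = i then q k else 0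

/-- A certificate: cuts `w, h` valid for all neighbourhoods, and multipliers `μ, y, u`. -/
def Kill (M : ℝ) {K : Type} [Fintype K] [DecidableEq K] (par : K → Fin 3) (bdd : List (K → Bool))
    (s : K → ℝ) (R : Set (Fin 3 → ℝ)) : Prop :=
  ∃ (n : ℕ) (w : Fin n → K → ℝ) (h : Fin n → ℝ) (μ : K → ℝ) (y : (Fin 4 → K) → Fin n → ℝ)
    (u : (Fin 5 → K) → ℝ),
    (∀ c k, 0 ≤ w c k) ∧
    (∀ c (q : K → ℝ), (∀ k, 0 ≤ q k) → (∀ k, q k ≤ s k) → agg par q ∈ R →
      ∑ k, w c k * q k ≤ h c) ∧
    (∀ k, |μ k| ≤ M) ∧ (∀ κ c, 0 ≤ y κ c) ∧ (∀ κ, 0 ≤ u κ) ∧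
    (∀ κ : Fin 5 → K, (∀ S ∈ bdd, (univ.filter (fun i => S (κ i) = true)).card ≤ 3) →
      ∑ i, μ (κ i) ≤ ∑ i : Fin 5, ∑ c, y (i.removeNth κ) c * w c (κ i) + u κ) ∧
    1 ≤ ∑ k, μ k * s k ∧
    5 * ∑ κ : Fin 4 → K, (∑ c, y κ c * h c) * ∏ i, s (κ i) + ∑ κ : Fin 5 → K, u κ * ∏ i, s (κ i) ≤
      5 * (216 / 625) * ∑ k, μ k * s k

section
variable {N : ℕ}

/-- the profile of a tuple with respect to a partition into cells -/
noncomputable def prof {K : Type} [DecidableEq K] (G : Finset (Finset (Fin N))) (cell : Fin N → K)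
    (T : Fin 4 → Fin N) (k : K) : ℝ :=
  (((Nb G T).filter (fun v => cell v = k)).card : ℝ) / N

variable {K : Type} [Fintype K] [DecidableEq K] {G : Finset (Finset (Fin N))}

omit [Fintype K] in
theorem prof_nonneg (cell : Fin N → K) (T : Fin 4 → Fin N) (k : K) : 0 ≤ prof G cell T k := by
  unfold prof; positivity

omit [Fintype K] in
theorem prof_le (cell : Fin N → K) (T : Fin 4 → Fin N) (k : K) :
    prof G cell T k ≤ size cell k := by
  unfold prof size
  gcongr
  exact subset_univ _

theorem sum_Nb (hN : 0 < N) (cell : Fin N → K) (T : Fin 4 → Fin N) (w : K → ℝ) :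
    ∑ v ∈ Nb G T, w (cell v) = (∑ k, w k * prof G cell T k) * N := by
  have hNR : (N : ℝ) ≠ 0 := by positivity
  rw [← sum_fiberwise_of_maps_to (s := Nb G T) (t := univ) (g := cell) (fun _ _ => mem_univ _), sum_mul]
  refine sum_congr rfl fun k _ => ?_
  rw [sum_congr rfl (g := fun _ => w k) fun v hv => by rw [(mem_filter.mp hv).2]]
  rw [sum_const, nsmul_eq_mul, prof]
  field_simp

theorem agg_prof (par : K → Fin 3) (cell : Fin N → K) (T : Fin 4 → Fin N) :
    agg par (prof G cell T) = prof G (fun v => par (cell v)) T := by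
  funext i
  unfold agg prof
  have h1 : ((Nb G T).filter (fun v => par (cell v) = i)).card =
      ∑ k, if par k = i then ((Nb G T).filter (fun v => cell v = k)).card else 0 := by
    rw [card_eq_sum_card_fiberwise (f := cell) (t := univ) (fun _ _ => mem_coe.mpr (mem_univ _))]
    refine sum_congr rfl fun k _ => ?_
    split_ifs with h
    · congr 1
      ext v
      simp only [mem_filter]
      constructor
      · rintro ⟨⟨a, b⟩, c⟩; exact ⟨a, c⟩
      · rintro ⟨a, c⟩; exact ⟨⟨a, by rw [c]; exact h⟩, c⟩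
    · rw [card_eq_zero, filter_eq_empty_iff]
      intro v hv hc
      apply h
      rw [← hc]
      exact (mem_filter.mp hv).2
  rw [h1]
  push_cast
  rw [sum_div]
  refine sum_congr rfl fun k _ => ?_
  split_ifs <;> simp

/-- regularity of the ordered degrees, up to `ε` -/
def Reg (G : Finset (Finset (Fin N))) (π ε : ℝ) : Prop :=
  ∀ (μ : Fin N → ℝ) (M : ℝ), (∀ v, |μ v| ≤ M) →
    π * (N : ℝ) ^ 4 * ∑ v, μ v - ε * M * (N : ℝ) ^ 5 ≤ ∑ v, μ v * (odeg G v : ℝ)

theorem kill_sound (hN : 0 < N) {π ε M : ℝ} (hε : 0 ≤ ε) (hπ : 216 / 625 ≤ π) (hG : Free G)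
    (hreg : Reg G π ε) (cell : Fin N → K) (par : K → Fin 3) (bdd : List (K → Bool))
    (hbdd : ∀ S ∈ bdd, ∃ T₀ : Fin 4 → Fin N, ∀ v, S (cell v) = true → v ∈ Nb G T₀)
    (R : Set (Fin 3 → ℝ)) (hR : ∀ T, prof G (fun v => par (cell v)) T ∈ R)
    (hk : Kill M par bdd (size cell) R) :
    π - 216 / 625 ≤ M * (ε + 20 * bdd.length / N) := by
  classical
  obtain ⟨n, w, h, μ, y, u, hw, hcut, hM, hy, hu, hfeas, h1, hP⟩ := hk
  have hNR : (0 : ℝ) < N := by exact_mod_cast hN
  have hM0 : 0 ≤ M := by
    have : Nonempty (Fin N) := ⟨⟨0, hN⟩⟩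
    exact (abs_nonneg _).trans (hM (cell ⟨0, hN⟩))
  have hne : Nonempty (Fin 4 → Fin N) := ⟨fun _ => ⟨0, hN⟩⟩
  choose! f hf using hbdd
  let bad : Finset (Fin 5 → Fin N) := bdd.toFinset.biUnion (fun S => meets (f S))
  have hbad : (bad.card : ℝ) ≤ 20 * bdd.length * (N : ℝ) ^ 4 := by
    have h2 : bad.card ≤ bdd.toFinset.card * (20 * N ^ 4) := by
      refine card_biUnion_le_card_mul _ _ _ fun S _ => ?_
      have := card_meets (f S)
      rwa [Fintype.card_fin] at this
    have h3 : bdd.toFinset.card ≤ bdd.length := bdd.toFinset_card_le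
    have h4 : bad.card ≤ bdd.length * (20 * N ^ 4) := h2.trans (Nat.mul_le_mul_right _ h3)
    calc (bad.card : ℝ) ≤ ((bdd.length * (20 * N ^ 4) : ℕ) : ℝ) := by exact_mod_cast h4
      _ = 20 * bdd.length * (N : ℝ) ^ 4 := by push_cast; ring
  have key := ray_cells hN π ε hε hreg cell
    (fun κ => ∀ S ∈ bdd, (univ.filter (fun i => S (κ i) = true)).card ≤ 3) bad
    (by
      intro F hF hb S hS
      have hFG := mem_OE.mp hF
      have h5 := three_bounded hG (f S) F hFG (by
        intro i j hij
        apply hb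
        simp only [bad, mem_biUnion, List.mem_toFinset]
        exact ⟨S, hS, by simp only [meets, mem_filter, mem_univ, true_and]; exact ⟨i, j, hij⟩⟩)
      refine (card_le_card ?_).trans h5
      intro i hi
      simp only [mem_filter, mem_univ, true_and] at hi ⊢
      exact hf S hS _ hi)
    w hw h
    (by
      intro c T
      rw [sum_Nb hN]
      refine mul_le_mul_of_nonneg_right ?_ hNR.le
      refine hcut c _ (fun k => prof_nonneg _ _ _) (fun k => prof_le _ _ _) ?_
      rw [agg_prof]
      exact hR T)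
    μ M hM y hy u hu hfeas
  have h6 : M * (bad.card / (N : ℝ) ^ 5) ≤ M * (20 * bdd.length / N) := by
    refine mul_le_mul_of_nonneg_left ?_ hM0
    rw [div_le_div_iff₀ (by positivity) hNR]
    calc (bad.card : ℝ) * N ≤ (20 * bdd.length * (N : ℝ) ^ 4) * N :=
          mul_le_mul_of_nonneg_right hbad hNR.le
      _ = 20 * bdd.length * (N : ℝ) ^ 5 := by ring
  have h7 : (π - 216 / 625) * 1 ≤ (π - 216 / 625) * ∑ k, μ k * size cell k :=
    mul_le_mul_of_nonneg_left h1 (by linarith)
  have h8 : 5 * π * ∑ k, μ k * size cell k ≤ 5 * (216 / 625) * ∑ k, μ k * size cell k +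
      5 * ε * M + 5 * M * (bad.card / (N : ℝ) ^ 5) := by linarith
  nlinarith [h6, h7, h8]

end

/-- the sizes of the three cells -/
noncomputable def s3 (α γ : ℝ) : Fin 3 → ℝ := ![α, γ, 1 - α - γ]

/-- the sizes of the six cells `A∩Z, A∖Z, C∩Z, C∖Z, D∩Z, D∖Z` -/
noncomputable def s6 (α γ : ℝ) (z : Fin 3 → ℝ) : Fin 6 → ℝ :=
  ![z 0, α - z 0, z 1, γ - z 1, z 2, 1 - α - γ - z 2]

/-- the basic cell of each of the six cells -/
def par6 : Fin 6 → Fin 3 := ![0, 0, 1, 1, 2, 2]

/-- The configurations with these parameters, all whose profiles lie in `R`, are killed by a chain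
of extremal choices. -/
inductive Dead (M α γ : ℝ) : Set (Fin 3 → ℝ) → Prop
  | kill (R : Set (Fin 3 → ℝ)) :
      Kill M id [fun k : Fin 3 => k == 0, fun k => k == 1] (s3 α γ) R → Dead M α γ R
  | step (R : Set (Fin 3 → ℝ)) (f : (Fin 3 → ℝ) → ℝ) (t : ℝ) :
      (∀ z ∈ R, t < f z →
        Kill M par6 [fun k : Fin 6 => par6 k == 0, fun k => par6 k == 1,
          fun k => k == 0 || k == 2 || k == 4] (s6 α γ z) (R ∩ {p | f p ≤ f z})) →
      Dead M α γ (R ∩ {p | f p ≤ t}) → Dead M α γ R

section
variable {N : ℕ} {G : Finset (Finset (Fin N))}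

theorem size_fin3 (hN : 0 < N) (cell : Fin N → Fin 3) :
    size cell = s3 (size cell 0) (size cell 1) := by
  have h := sum_size cell hN
  rw [Fin.sum_univ_three] at h
  funext k
  fin_cases k
  · rfl
  · rfl
  · show size cell 2 = 1 - size cell 0 - size cell 1
    linarith

/-- the six cells given by a further neighbourhood -/
def cell6 (G : Finset (Finset (Fin N))) (cell : Fin N → Fin 3) (T : Fin 4 → Fin N) (v : Fin N) : Fin 6 :=
  if v ∈ Nb G T then ![0, 2, 4] (cell v) else ![1, 3, 5] (cell v)

theorem par_cell6 (cell : Fin N → Fin 3) (T : Fin 4 → Fin N) :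
    (fun v => par6 (cell6 G cell T v)) = cell := by
  funext v
  unfold cell6
  generalize cell v = a
  split_ifs <;> fin_cases a <;> rfl

theorem size_cell6_mem (cell : Fin N → Fin 3) (T : Fin 4 → Fin N) (a : Fin 3) :
    size (cell6 G cell T) (![0, 2, 4] a) = prof G cell T a := by
  unfold size prof
  congr 2
  refine congrArg card ?_
  ext v
  simp only [mem_filter, mem_univ, true_and]
  unfold cell6
  generalize cell v = b
  by_cases hv : v ∈ Nb G T
  · simp only [hv, if_true, true_and]
    fin_cases a <;> fin_cases b <;> simp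
  · simp only [hv, if_false, false_and, iff_false]
    fin_cases a <;> fin_cases b <;> simp

theorem size_cell6_not (cell : Fin N → Fin 3) (T : Fin 4 → Fin N) (a : Fin 3) :
    size (cell6 G cell T) (![1, 3, 5] a) = size cell a - prof G cell T a := by
  rw [← size_cell6_mem]
  unfold size
  rw [← sub_div]
  congr 1
  rw [eq_sub_iff_add_eq]
  norm_cast
  rw [← card_union_of_disjoint]
  · refine congrArg card ?_
    ext v
    simp only [mem_union, mem_filter, mem_univ, true_and]
    unfold cell6
    generalize cell v = b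
    by_cases hv : v ∈ Nb G T
    · simp only [hv, if_true]
      fin_cases a <;> fin_cases b <;> simp
    · simp only [hv, if_false]
      fin_cases a <;> fin_cases b <;> simp
  · rw [disjoint_left]
    intro v hv hw
    simp only [mem_filter, mem_univ, true_and] at hv hw
    rw [hv] at hw
    fin_cases a <;> simp at hw

theorem size_cell6 (hN : 0 < N) (cell : Fin N → Fin 3) (T : Fin 4 → Fin N) :
    size (cell6 G cell T) = s6 (size cell 0) (size cell 1) (prof G cell T) := by
  have h3 := congrFun (size_fin3 hN cell) 2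
  have h2 : size cell 2 = 1 - size cell 0 - size cell 1 := h3
  funext k
  fin_cases k
  · exact size_cell6_mem cell T 0
  · exact size_cell6_not cell T 0
  · exact size_cell6_mem cell T 1
  · exact size_cell6_not cell T 1
  · exact size_cell6_mem cell T 2
  · have := size_cell6_not (G := G) cell T 2
    rw [h2] at this
    exact this

theorem dead_sound (hN : 0 < N) {π ε M : ℝ} (hε : 0 ≤ ε) (hM : 0 ≤ M) (hπ : 216 / 625 ≤ π)
    (hG : Free G)
    (hreg : Reg G π ε) (cell : Fin N → Fin 3) (T₀ T₁ : Fin 4 → Fin N)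
    (hA : ∀ v, cell v = 0 → v ∈ Nb G T₀) (hC : ∀ v, cell v = 1 → v ∈ Nb G T₁) {α γ : ℝ}
    (hα : size cell 0 = α) (hγ : size cell 1 = γ)
    (R : Set (Fin 3 → ℝ)) (hd : Dead M α γ R) (hR : ∀ T, prof G cell T ∈ R) :
    π - 216 / 625 ≤ M * (ε + 60 / N) := by
  induction hd with
  | kill R hk =>
    have h1 : size cell = s3 α γ := by rw [size_fin3 hN cell, hα, hγ]
    have h2 := kill_sound (M := M) hN hε hπ hG hreg cell id [fun k : Fin 3 => k == 0, fun k => k == 1]
      (by
        intro S hS
        simp only [List.mem_cons, List.not_mem_nil, or_false] at hS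
        rcases hS with rfl | rfl
        · exact ⟨T₀, fun v hv => hA v (by simpa using hv)⟩
        · exact ⟨T₁, fun v hv => hC v (by simpa using hv)⟩) R (by simpa using hR) (by rw [h1]; exact hk)
    refine h2.trans (mul_le_mul_of_nonneg_left ?_ hM)
    have hNR : (0 : ℝ) < N := by exact_mod_cast hN
    simp only [List.length_cons, List.length_nil]
    gcongr
    norm_num
  | step R f t hk _ ih =>
    by_cases hex : ∃ T, t < f (prof G cell T)
    · obtain ⟨T', hT'⟩ := hex
      have hne : Nonempty (Fin 4 → Fin N) := ⟨T'⟩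
      obtain ⟨T, -, hT⟩ := exists_max_image (univ : Finset (Fin 4 → Fin N))
        (fun T => f (prof G cell T)) ⟨T', mem_univ _⟩
      have h0 : t < f (prof G cell T) := lt_of_lt_of_le hT' (hT T' (mem_univ _))
      have h1 : size (cell6 G cell T) = s6 α γ (prof G cell T) := by
        rw [size_cell6 hN cell, hα, hγ]
      have h2 := kill_sound (M := M) hN hε hπ hG hreg (cell6 G cell T) par6
        [fun k : Fin 6 => par6 k == 0, fun k => par6 k == 1, fun k => k == 0 || k == 2 || k == 4]
        (by
          intro S hS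
          simp only [List.mem_cons, List.not_mem_nil, or_false] at hS
          rcases hS with rfl | rfl | rfl
          · refine ⟨T₀, fun v hv => hA v ?_⟩
            have := congrFun (par_cell6 (G := G) cell T) v
            rw [← this]
            simpa using hv
          · refine ⟨T₁, fun v hv => hC v ?_⟩
            have := congrFun (par_cell6 (G := G) cell T) v
            rw [← this]
            simpa using hv
          · refine ⟨T, fun v hv => ?_⟩
            by_contra hcon
            unfold cell6 at hv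
            rw [if_neg hcon] at hv
            generalize cell v = b at hv
            fin_cases b <;> simp at hv)
        (R ∩ {p | f p ≤ f (prof G cell T)})
        (by
          intro T''
          rw [par_cell6]
          exact ⟨hR T'', hT T'' (mem_univ _)⟩)
        (by rw [h1]; exact hk _ (hR T) h0)
      refine h2.trans (mul_le_mul_of_nonneg_left ?_ hM)
      have hNR : (0 : ℝ) < N := by exact_mod_cast hN
      simp only [List.length_cons, List.length_nil]
      gcongr
      norm_num
    · push Not at hex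
      exact ih fun T => ⟨hR T, hex T⟩

end

end Pool.Agent.Helper65.B54
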