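import Pool.Agent.Helper65.B54.Turan

/-!
# Lower bound: the construction `AAABB`
-/

namespace Pool.Agent.Helper65.B54

open Finset

/-- the `5`-sets with exactly three vertices in `A` -/
def constr {V : Type} [DecidableEq V] [Fintype V] (A : Finset V) : Finset (Finset V) :=
  (univ.powersetCard 5).filter (fun e => (e ∩ A).card = 3)

theorem constr_free {V : Type} [DecidableEq V] [Fintype V] (A : Finset V) : Free (constr A) := by
  constructor
  · intro e he
    rw [constr, mem_filter, mem_powersetCard] at he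
    exact he.1.2
  · intro hc
    obtain ⟨S, X, y, hS, hX, hd, hyS, hyX, h1, h2⟩ := exists_of_hasCopy hc
    have hmem : ∀ e, e ∈ constr A → (e ∩ A).card = 3 := fun e he => (mem_filter.mp he).2
    have h3 : ∀ x ∈ X, (S ∩ A).card + (if x ∈ A then 1 else 0) = 3 := by
      intro x hx
      have h4 := hmem _ (h1 x hx)
      have hxS : x ∉ S := fun h => (Finset.disjoint_left.mp hd h) hx
      split_ifs with hxA
      · rw [insert_inter_of_mem hxA, card_insert_of_notMem (fun h => hxS (mem_inter.mp h).1)] at h4
        exact h4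
      · rw [insert_inter_of_notMem hxA] at h4
        simpa using h4
    have h5 := hmem _ h2
    have hXne : X.Nonempty := by rw [← card_pos]; omega
    obtain ⟨x0, hx0⟩ := hXne
    by_cases hx0A : x0 ∈ A
    · have hall : X ⊆ A := by
        intro x hx
        by_contra hxA
        have := h3 x hx
        have := h3 x0 hx0
        simp only [hxA, hx0A, if_true, if_false] at *
        omega
      have : (X ∩ A).card = 4 := by rw [inter_eq_left.mpr hall, hX]
      have h6 : X ∩ A ⊆ insert y X ∩ A := inter_subset_inter_right (subset_insert _ _)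
      have := card_le_card h6
      omega
    · have hall : X ∩ A = ∅ := by
        rw [← disjoint_iff_inter_eq_empty, Finset.disjoint_left]
        intro x hx hxA
        have := h3 x hx
        have := h3 x0 hx0
        simp only [hxA, hx0A, if_true, if_false] at *
        omega
      have h6 : insert y X ∩ A ⊆ insert y (X ∩ A) := by
        intro z hz
        rw [mem_inter, mem_insert] at hz
        rw [mem_insert, mem_inter]
        tauto
      have := card_le_card h6
      rw [hall] at this
      simp at this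
      omega

theorem constr_card {V : Type} [DecidableEq V] [Fintype V] (A : Finset V) :
    (A.card.choose 3) * ((Aᶜ).card.choose 2) ≤ (constr A).card := by
  rw [← card_powersetCard, ← card_powersetCard, ← card_product]
  apply card_le_card_of_injOn (fun p => p.1 ∪ p.2)
  · intro p hp
    rw [mem_coe, mem_product, mem_powersetCard, mem_powersetCard] at hp
    obtain ⟨⟨h1, h2⟩, h3, h4⟩ := hp
    have hd : Disjoint p.1 p.2 := by
      rw [Finset.disjoint_left]
      intro a ha hb
      exact (mem_compl.mp (h3 hb)) (h1 ha)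
    have h5 : (p.1 ∪ p.2) ∩ A = p.1 := by
      ext a
      simp only [mem_inter, mem_union]
      constructor
      · rintro ⟨h | h, hA⟩
        · exact h
        · exact absurd hA (mem_compl.mp (h3 h))
      · intro h; exact ⟨Or.inl h, h1 h⟩
    rw [mem_coe, constr, mem_filter, mem_powersetCard]
    refine ⟨⟨subset_univ _, ?_⟩, ?_⟩
    · show (p.1 ∪ p.2).card = 5
      rw [card_union_of_disjoint hd, h2, h4]
    · show ((p.1 ∪ p.2) ∩ A).card = 3
      rw [h5, h2]
  · intro p hp q hq hpq
    rw [mem_coe, mem_product, mem_powersetCard, mem_powersetCard] at hp hq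
    have key : ∀ r : Finset V × Finset V, r.1 ⊆ A → r.2 ⊆ Aᶜ →
        (r.1 ∪ r.2) ∩ A = r.1 ∧ (r.1 ∪ r.2) ∩ Aᶜ = r.2 := by
      intro r h1 h3
      constructor
      · ext a
        simp only [mem_inter, mem_union]
        constructor
        · rintro ⟨h | h, hA⟩
          · exact h
          · exact absurd hA (mem_compl.mp (h3 h))
        · intro h; exact ⟨Or.inl h, h1 h⟩
      · ext a
        simp only [mem_inter, mem_union]
        constructor
        · rintro ⟨h | h, hA⟩
          · exact absurd (h1 h) (mem_compl.mp hA)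
          · exact h
        · intro h; exact ⟨Or.inr h, h3 h⟩
    obtain ⟨a1, a2⟩ := key p hp.1.1 hp.2.1
    obtain ⟨b1, b2⟩ := key q hq.1.1 hq.2.1
    have hpq' : p.1 ∪ p.2 = q.1 ∪ q.2 := hpq
    refine Prod.ext ?_ ?_
    · rw [← a1, ← b1, hpq']
    · rw [← a2, ← b2, hpq']

theorem lower_fin (m : ℕ) (hm : 1 ≤ m) : (216 / 625 : ℝ) ≤ dens (5 * m) := by
  set A : Finset (Fin (5 * m)) := univ.filter (fun i => i.val < 3 * m) with hA
  have hAc : A.card = 3 * m := by
    have h1 : A = (univ : Finset (Fin (5 * m))).filter (fun i => i.val < 3 * m) := rfl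
    rw [h1, Fin.card_filter_val_lt]
    omega
  have hBc : (Aᶜ).card = 2 * m := by rw [card_compl, hAc, Fintype.card_fin]; omega
  have h1 := constr_card A
  rw [hAc, hBc] at h1
  have h2 := card_le_ex (constr_free A)
  have h3 : ((3 * m).choose 3 : ℝ) * ((2 * m).choose 2 : ℝ) ≤ ex 5 (book 5 4) (5 * m) := by
    exact_mod_cast h1.trans h2
  have hc : (0 : ℝ) < (5 * m).choose 5 := by exact_mod_cast Nat.choose_pos (by omega)
  unfold dens
  rw [le_div_iff₀ hc]
  refine le_trans ?_ h3
  have hmR : (1 : ℝ) ≤ m := by exact_mod_cast hm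
  have e5 : 120 * ((5 * m).choose 5 : ℝ) = (5 * m) * (5 * m - 1) * (5 * m - 2) * (5 * m - 3) * (5 * m - 4) := by
    have a1 := Nat.descFactorial_eq_factorial_mul_choose (5 * m) 5
    have a2 : ((5 * m).descFactorial 5 : ℝ) = 120 * ((5 * m).choose 5 : ℝ) := by
      rw [a1]; push_cast; norm_num [Nat.factorial]
    rw [← a2, Nat.descFactorial_eq_prod_range]
    simp only [prod_range_succ, prod_range_zero, one_mul, Nat.sub_zero]
    push_cast [Nat.cast_sub (show 1 ≤ 5 * m by omega), Nat.cast_sub (show 2 ≤ 5 * m by omega),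
      Nat.cast_sub (show 3 ≤ 5 * m by omega), Nat.cast_sub (show 4 ≤ 5 * m by omega)]
    ring
  have e3 : 6 * ((3 * m).choose 3 : ℝ) = (3 * m) * (3 * m - 1) * (3 * m - 2) := by
    have a1 := Nat.descFactorial_eq_factorial_mul_choose (3 * m) 3
    have a2 : ((3 * m).descFactorial 3 : ℝ) = 6 * ((3 * m).choose 3 : ℝ) := by
      rw [a1]; push_cast; norm_num [Nat.factorial]
    rw [← a2, Nat.descFactorial_eq_prod_range]
    simp only [prod_range_succ, prod_range_zero, one_mul, Nat.sub_zero]
    push_cast [Nat.cast_sub (show 1 ≤ 3 * m by omega), Nat.cast_sub (show 2 ≤ 3 * m by omega)]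
    ring
  have e2 : 2 * ((2 * m).choose 2 : ℝ) = (2 * m) * (2 * m - 1) := by
    have a1 := Nat.descFactorial_eq_factorial_mul_choose (2 * m) 2
    have a2 : ((2 * m).descFactorial 2 : ℝ) = 2 * ((2 * m).choose 2 : ℝ) := by
      rw [a1]; push_cast; norm_num [Nat.factorial]
    rw [← a2, Nat.descFactorial_eq_prod_range]
    simp only [prod_range_succ, prod_range_zero, one_mul, Nat.sub_zero]
    push_cast [Nat.cast_sub (show 1 ≤ 2 * m by omega)]
    ring
  have e5' : ((5 * m).choose 5 : ℝ) = (5 * m) * (5 * m - 1) * (5 * m - 2) * (5 * m - 3) * (5 * m - 4) / 120 := by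
    linarith
  have e3' : ((3 * m).choose 3 : ℝ) = (3 * m) * (3 * m - 1) * (3 * m - 2) / 6 := by linarith
  have e2' : ((2 * m).choose 2 : ℝ) = (2 * m) * (2 * m - 1) / 2 := by linarith
  rw [e5', e3', e2']
  obtain ⟨t, ht⟩ : ∃ t : ℝ, t = m - 1 := ⟨_, rfl⟩
  have ht0 : 0 ≤ t := by rw [ht]; linarith
  have hm' : (m : ℝ) = t + 1 := by rw [ht]; ring
  rw [hm']
  have : 0 ≤ (3 * (t + 1)) * (3 * (t + 1) - 1) * (3 * (t + 1) - 2) / 6 * ((2 * (t + 1)) * (2 * (t + 1) - 1) / 2)
      - 216 / 625 * ((5 * (t + 1)) * (5 * (t + 1) - 1) * (5 * (t + 1) - 2) * (5 * (t + 1) - 3) * (5 * (t + 1) - 4) / 120) := by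
    ring_nf
    positivity
  linarith

theorem lower : (216 / 625 : ℝ) ≤ piB := by
  refine le_ciInf fun n => ?_
  exact (lower_fin (n + 5) (by omega)).trans (dens_anti (by omega) (by omega))

end Pool.Agent.Helper65.B54
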