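import Pool.Agent.Helper65.B54.Extremal
import Pool.Agent.Helper65.B54.Lower

/-!
# The reduction: chains of extremal choices bound the Turán density
-/

namespace Pool.Agent.Helper65.B54

open Finset

/-- the region that contains all profiles from the start -/
def R0 (α γ : ℝ) : Set (Fin 3 → ℝ) :=
  {p | (∀ i, 0 ≤ p i) ∧ p 0 + p 1 + p 2 ≤ α ∧ p 1 + p 2 ≤ γ ∧ p 2 ≤ 1 - α - γ}

/-- the three basic cells -/
def cell3 {N : ℕ} (G : Finset (Finset (Fin N))) (T₀ T₁ : Fin 4 → Fin N) (v : Fin N) : Fin 3 :=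
  if v ∈ Nb G T₀ then 0 else if v ∈ Nb G T₁ then 1 else 2

theorem prof_sum {N : ℕ} {G : Finset (Finset (Fin N))} (cell : Fin N → Fin 3) (T : Fin 4 → Fin N) :
    prof G cell T 0 + prof G cell T 1 + prof G cell T 2 = ((Nb G T).card : ℝ) / N := by
  unfold prof
  rw [← add_div, ← add_div]
  congr 1
  have h := card_eq_sum_card_fiberwise (f := cell) (s := Nb G T) (t := univ)
    (fun _ _ => mem_coe.mpr (mem_univ _))
  rw [Fin.sum_univ_three] at h
  exact_mod_cast h.symm

theorem size_zero {N : ℕ} {G : Finset (Finset (Fin N))} (T₀ T₁ : Fin 4 → Fin N) :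
    size (cell3 G T₀ T₁) 0 = ((Nb G T₀).card : ℝ) / N := by
  unfold size
  congr 2
  refine congrArg card ?_
  ext v
  simp only [mem_filter, mem_univ, true_and]
  unfold cell3
  split_ifs with h1 h2 <;> simp [h1]

theorem size_one {N : ℕ} {G : Finset (Finset (Fin N))} (T₀ T₁ : Fin 4 → Fin N) :
    size (cell3 G T₀ T₁) 1 = ((Nb G T₁ \ Nb G T₀).card : ℝ) / N := by
  unfold size
  congr 2
  refine congrArg card ?_
  ext v
  simp only [mem_filter, mem_univ, true_and, mem_sdiff]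
  unfold cell3
  by_cases h1 : v ∈ Nb G T₀ <;> by_cases h2 : v ∈ Nb G T₁ <;> simp [h1, h2]

theorem prof_one_two {N : ℕ} {G : Finset (Finset (Fin N))} (T₀ T₁ T : Fin 4 → Fin N) :
    prof G (cell3 G T₀ T₁) T 1 + prof G (cell3 G T₀ T₁) T 2 =
      ((Nb G T \ Nb G T₀).card : ℝ) / N := by
  unfold prof
  rw [← add_div]
  congr 1
  rw [← Nat.cast_add, ← card_union_of_disjoint]
  · congr 1
    refine congrArg card ?_
    ext v
    simp only [mem_union, mem_filter, mem_sdiff]
    unfold cell3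
    split_ifs with h1 h2 <;> simp [h1]
  · rw [disjoint_left]
    intro v hv hw
    rw [mem_filter] at hv hw
    rw [hv.2] at hw
    simp at hw

theorem prof_mem_R0 {N : ℕ} (hN : 0 < N) {G : Finset (Finset (Fin N))} (T₀ T₁ : Fin 4 → Fin N)
    (h0 : ∀ T, (Nb G T).card ≤ (Nb G T₀).card)
    (h1 : ∀ T, (Nb G T \ Nb G T₀).card ≤ (Nb G T₁ \ Nb G T₀).card) (T : Fin 4 → Fin N) :
    prof G (cell3 G T₀ T₁) T ∈ R0 (size (cell3 G T₀ T₁) 0) (size (cell3 G T₀ T₁) 1) := by
  refine ⟨fun i => prof_nonneg _ _ _, ?_, ?_, ?_⟩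
  · rw [prof_sum, size_zero]
    exact div_le_div_of_nonneg_right (by exact_mod_cast h0 T) (Nat.cast_nonneg _)
  · rw [prof_one_two, size_one]
    exact div_le_div_of_nonneg_right (by exact_mod_cast h1 T) (Nat.cast_nonneg _)
  · have h2 := congrFun (size_fin3 hN (cell3 G T₀ T₁)) 2
    have h3 : size (cell3 G T₀ T₁) 2 =
        1 - size (cell3 G T₀ T₁) 0 - size (cell3 G T₀ T₁) 1 := h2
    rw [← h3]
    exact prof_le _ _ _

/-- **Reduction.** -/
theorem upper_of_dead (M : ℝ) (hM : 0 ≤ M)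
    (h : ∀ α γ : ℝ, 0 ≤ γ → γ ≤ α → α + γ ≤ 1 → Dead M α γ (R0 α γ)) : piB ≤ 216 / 625 := by
  by_contra hcon
  push Not at hcon
  set g : ℝ := piB - 216 / 625 with hg
  have hgpos : 0 < g := by linarith
  -- choose `ε` and `n0`
  have hε : 0 < g / (4 * (M + 1)) := by positivity
  obtain ⟨n0, hn0⟩ := exists_nat_gt (60 / (g / (4 * (M + 1))))
  obtain ⟨N, hN0, hN, G, hG, hreg⟩ := near_regular (g / (4 * (M + 1))) hε (n0 + 1)
  have hNR : (0 : ℝ) < N := by exact_mod_cast hN
  have hne : Nonempty (Fin 4 → Fin N) := ⟨fun _ => ⟨0, hN⟩⟩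
  obtain ⟨T₀, -, hT₀⟩ := exists_max_image (univ : Finset (Fin 4 → Fin N))
    (fun T => (Nb G T).card) ⟨hne.some, mem_univ _⟩
  obtain ⟨T₁, -, hT₁⟩ := exists_max_image (univ : Finset (Fin 4 → Fin N))
    (fun T => (Nb G T \ Nb G T₀).card) ⟨hne.some, mem_univ _⟩
  have h0 : ∀ T, (Nb G T).card ≤ (Nb G T₀).card := fun T => hT₀ T (mem_univ _)
  have h1 : ∀ T, (Nb G T \ Nb G T₀).card ≤ (Nb G T₁ \ Nb G T₀).card := fun T => hT₁ T (mem_univ _)
  have hmem := prof_mem_R0 hN T₀ T₁ h0 h1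
  have hs := size_fin3 hN (cell3 G T₀ T₁)
  have hs2 : size (cell3 G T₀ T₁) 2 = 1 - size (cell3 G T₀ T₁) 0 - size (cell3 G T₀ T₁) 1 :=
    congrFun hs 2
  have hd := h (size (cell3 G T₀ T₁) 0) (size (cell3 G T₀ T₁) 1) (size_nonneg _ _)
    (by
      rw [size_zero, size_one]
      exact div_le_div_of_nonneg_right
        (by exact_mod_cast (card_le_card sdiff_subset).trans (h0 T₁)) (Nat.cast_nonneg _))
    (by
      have := size_nonneg (cell3 G T₀ T₁) 2
      linarith)
  have key := dead_sound hN hε.le hM hcon.le hG hreg (cell3 G T₀ T₁) T₀ T₁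
    (by
      intro v hv
      unfold cell3 at hv
      split_ifs at hv with h1 h2
      · exact h1
      · simp at hv
      · simp at hv)
    (by
      intro v hv
      unfold cell3 at hv
      split_ifs at hv with h1 h2
      · simp at hv
      · exact h2
      · simp at hv) rfl rfl _ hd hmem
  have h60 : 60 / (N : ℝ) ≤ g / (4 * (M + 1)) := by
    rw [div_le_iff₀ hNR]
    have h2 : (n0 : ℝ) ≤ N := by
      have : n0 ≤ N := by omega
      exact_mod_cast this
    have h3 := hn0.le.trans h2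
    rw [div_le_iff₀ hε] at h3
    linarith
  have h4 : M * (g / (4 * (M + 1)) + 60 / N) ≤ M * (g / (2 * (M + 1))) := by
    refine mul_le_mul_of_nonneg_left ?_ hM
    have : g / (2 * (M + 1)) = g / (4 * (M + 1)) + g / (4 * (M + 1)) := by
      field_simp
      ring
    rw [this]
    linarith
  have h5 : M * (g / (2 * (M + 1))) ≤ g / 2 := by
    rw [mul_div_assoc', div_le_div_iff₀ (by positivity) (by norm_num)]
    nlinarith
  linarith

/-- **Turán density.** -/
theorem turan_of_dead (M : ℝ) (hM : 0 ≤ M)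
    (h : ∀ α γ : ℝ, 0 ≤ γ → γ ≤ α → α + γ ≤ 1 → Dead M α γ (R0 α γ)) :
    Filter.Tendsto (fun n : ℕ => (ex 5 (book 5 4) n : ℝ) / (n.choose 5 : ℝ)) Filter.atTop
      (nhds (216 / 625)) := by
  have h1 : piB = 216 / 625 := le_antisymm (upper_of_dead M hM h) lower
  rw [← h1]
  exact tendsto_dens

end Pool.Agent.Helper65.B54
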