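import Pool.Agent.Helper65.B54.Turan

/-!
# Ordered tuples, neighbourhoods, the ray lemma
-/

namespace Pool.Agent.Helper65.B54

open Finset

section
variable {V : Type} [DecidableEq V] [Fintype V]

/-- the neighbourhood of a `4`-tuple -/
def Nb (G : Finset (Finset V)) (T : Fin 4 → V) : Finset V :=
  univ.filter (fun v => insert v (univ.image T) ∈ G)

/-- ordered edges -/
def OE (G : Finset (Finset V)) : Finset (Fin 5 → V) :=
  univ.filter (fun F => univ.image F ∈ G)

theorem mem_Nb {G : Finset (Finset V)} {T : Fin 4 → V} {v : V} :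
    v ∈ Nb G T ↔ insert v (univ.image T) ∈ G := by simp [Nb]

theorem mem_OE {G : Finset (Finset V)} {F : Fin 5 → V} : F ∈ OE G ↔ univ.image F ∈ G := by
  simp [OE]

/-- ordered degree -/
def odeg (G : Finset (Finset V)) (v : V) : ℕ := (univ.filter (fun T : Fin 4 → V => v ∈ Nb G T)).card

omit [Fintype V] in
theorem image_insertNth (i : Fin 5) (v : V) (T : Fin 4 → V) :
    univ.image (Fin.insertNth (α := fun _ => V) i v T) = insert v (univ.image T) := by
  ext w
  simp only [mem_image, mem_univ, true_and, mem_insert]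
  constructor
  · rintro ⟨j, rfl⟩
    rcases Fin.eq_self_or_eq_succAbove i j with h | ⟨k, h⟩
    · left; subst h; simp
    · right; subst h; exact ⟨k, by simp⟩
  · rintro (rfl | ⟨k, rfl⟩)
    · exact ⟨i, by simp⟩
    · exact ⟨i.succAbove k, by simp⟩

/-- summing over ordered edges, singling out the position `i` -/
theorem sum_OE (G : Finset (Finset V)) (i : Fin 5) (g : V → (Fin 4 → V) → ℝ) :
    ∑ F ∈ OE G, g (F i) (i.removeNth F) = ∑ T : Fin 4 → V, ∑ v ∈ Nb G T, g v T := by
  classical
  have h1 : ∑ T : Fin 4 → V, ∑ v ∈ Nb G T, g v T =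
      ∑ p : V × (Fin 4 → V), if insert p.1 (univ.image p.2) ∈ G then g p.1 p.2 else 0 := by
    rw [Fintype.sum_prod_type_right]
    refine sum_congr rfl fun T _ => ?_
    rw [Nb, sum_filter]
  rw [h1, OE, sum_filter]
  rw [← (Fin.insertNthEquiv (fun _ => V) i).sum_comp]
  refine sum_congr rfl fun p _ => ?_
  have h2 : (Fin.insertNthEquiv (fun _ => V) i) p = Fin.insertNth (α := fun _ => V) i p.1 p.2 := rfl
  rw [h2, image_insertNth]
  simp

/-- **Ray lemma.** -/
theorem ray (G : Finset (Finset V)) (μ : V → ℝ) (W : (Fin 4 → V) → V → ℝ) (H : (Fin 4 → V) → ℝ)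
    (u : (Fin 5 → V) → ℝ) (M : ℝ) (bad : Finset (Fin 5 → V))
    (hW : ∀ T, ∑ v ∈ Nb G T, W T v ≤ H T) (hu : ∀ F, 0 ≤ u F) (hM : 0 ≤ M)
    (hpt : ∀ F ∈ OE G, F ∉ bad → ∑ i, μ (F i) ≤ ∑ i, W (i.removeNth F) (F i) + u F)
    (hbd : ∀ F ∈ OE G, ∑ i, μ (F i) ≤ ∑ i, W (i.removeNth F) (F i) + u F + M) :
    5 * ∑ v, μ v * (odeg G v : ℝ) ≤ 5 * ∑ T, H T + ∑ F, u F + M * bad.card := by
  classical
  have hL : ∑ F ∈ OE G, ∑ i, μ (F i) = 5 * ∑ v, μ v * (odeg G v : ℝ) := by
    rw [sum_comm]
    have : ∀ i : Fin 5, ∑ F ∈ OE G, μ (F i) = ∑ v, μ v * (odeg G v : ℝ) := by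
      intro i
      rw [sum_OE G i (fun v _ => μ v)]
      simp only [Nb, sum_filter]
      rw [sum_comm]
      refine sum_congr rfl fun v _ => ?_
      rw [← sum_filter, sum_const, nsmul_eq_mul, mul_comm]
      simp [odeg, Nb]
    rw [sum_congr rfl fun i _ => this i]
    simp
  have hR : ∑ F ∈ OE G, ∑ i, W (i.removeNth F) (F i) = 5 * ∑ T, ∑ v ∈ Nb G T, W T v := by
    rw [sum_comm]
    rw [sum_congr rfl fun i _ => sum_OE G i (fun v T => W T v)]
    simp
  have h1 : ∑ F ∈ OE G, ∑ i, μ (F i) ≤
      ∑ F ∈ OE G, (∑ i, W (i.removeNth F) (F i) + u F + (if F ∈ bad then M else 0)) := by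
    refine sum_le_sum fun F hF => ?_
    split_ifs with h
    · exact hbd F hF
    · rw [add_zero]; exact hpt F hF h
  rw [hL, sum_add_distrib, sum_add_distrib, hR] at h1
  have h2 : ∑ T, ∑ v ∈ Nb G T, W T v ≤ ∑ T, H T := sum_le_sum fun T _ => hW T
  have h3 : ∑ F ∈ OE G, u F ≤ ∑ F, u F :=
    sum_le_sum_of_subset_of_nonneg (subset_univ _) fun F _ _ => hu F
  have h4 : ∑ F ∈ OE G, (if F ∈ bad then M else 0) ≤ M * bad.card := by
    rw [← sum_filter, sum_const, nsmul_eq_mul, mul_comm]
    refine mul_le_mul_of_nonneg_left ?_ hM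
    have : (filter (fun F => F ∈ bad) (OE G)).card ≤ bad.card :=
      card_le_card fun F hF => (mem_filter.mp hF).2
    exact_mod_cast this
  linarith

/-- the neighbourhoods are `3`-bounded -/
theorem three_bounded {G : Finset (Finset V)} (hG : Free G) (T₀ : Fin 4 → V) (F : Fin 5 → V)
    (hF : univ.image F ∈ G) (hd : ∀ i j, F i ≠ T₀ j) :
    (univ.filter (fun i => F i ∈ Nb G T₀)).card ≤ 3 := by
  by_contra hcon
  push Not at hcon
  have hcF := hG.1 _ hF
  have hinj : Function.Injective F := by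
    have : (univ.image F).card = (univ : Finset (Fin 5)).card := by rw [hcF]; simp
    have h := Finset.card_image_iff.mp this
    intro a b hab
    exact h (mem_coe.mpr (mem_univ a)) (mem_coe.mpr (mem_univ b)) hab
  obtain ⟨I, hI, hIc⟩ := exists_subset_card_eq (show 4 ≤ (univ.filter (fun i => F i ∈ Nb G T₀)).card by omega)
  have hX : (I.image F).card = 4 := by rw [card_image_of_injective _ hinj, hIc]
  have hne : I.Nonempty := by rw [← card_pos]; omega
  obtain ⟨i0, hi0⟩ := hne
  have hS : (univ.image T₀).card = 4 := by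
    have h1 := (mem_filter.mp (hI hi0)).2
    rw [mem_Nb] at h1
    have h2 := hG.1 _ h1
    have h3 : (univ.image T₀).card ≤ 4 := card_image_le.trans (by simp)
    have h4 := card_insert_le (F i0) (univ.image T₀)
    omega
  obtain ⟨j, hj⟩ : ∃ j, j ∉ I := by
    by_contra hall
    push Not at hall
    have : I = univ := eq_univ_iff_forall.mpr hall
    rw [this] at hIc
    simp at hIc
  have hunion : insert (F j) (I.image F) = univ.image F := by
    have h1 : insert (F j) (I.image F) = (insert j I).image F := by rw [image_insert]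
    rw [h1]
    congr 1
    apply eq_univ_of_card
    rw [card_insert_of_notMem hj, hIc]
    simp
  refine hG.2 (hasCopy_of (S := univ.image T₀) (X := I.image F) (y := F j) hS hX ?_ ?_ ?_ ?_ ?_)
  · rw [disjoint_left]
    intro a ha hb
    simp only [mem_image, mem_univ, true_and] at ha hb
    obtain ⟨k, hk⟩ := ha
    obtain ⟨i, -, hi⟩ := hb
    exact hd i k (by rw [hi, hk])
  · intro ha
    simp only [mem_image, mem_univ, true_and] at ha
    obtain ⟨k, hk⟩ := ha
    exact hd j k hk.symm
  · intro ha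
    simp only [mem_image] at ha
    obtain ⟨i, hi, hk⟩ := ha
    exact hj (hinj hk ▸ hi)
  · intro x hx
    simp only [mem_image] at hx
    obtain ⟨i, hi, rfl⟩ := hx
    exact mem_Nb.mp (mem_filter.mp (hI hi)).2
  · rw [hunion]; exact hF

/-- tuples that meet a given `4`-tuple -/
def meets (T₀ : Fin 4 → V) : Finset (Fin 5 → V) :=
  univ.filter (fun F => ∃ i j, F i = T₀ j)

theorem card_meets (T₀ : Fin 4 → V) : (meets T₀).card ≤ 20 * (Fintype.card V) ^ 4 := by
  classical
  have h1 : meets T₀ ⊆ (univ : Finset (Fin 5 × Fin 4)).biUnion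
      (fun p => univ.filter (fun F : Fin 5 → V => F p.1 = T₀ p.2)) := by
    intro F hF
    simp only [meets, mem_filter, mem_univ, true_and] at hF
    obtain ⟨i, j, h⟩ := hF
    simp only [mem_biUnion, mem_univ, true_and, mem_filter]
    exact ⟨(i, j), h⟩
  refine (card_le_card h1).trans (card_biUnion_le.trans ?_)
  have h2 : ∀ p : Fin 5 × Fin 4, (univ.filter (fun F : Fin 5 → V => F p.1 = T₀ p.2)).card =
      (Fintype.card V) ^ 4 := by
    intro p
    have : (univ.filter (fun F : Fin 5 → V => F p.1 = T₀ p.2)) =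
        (univ : Finset (Fin 4 → V)).image (fun T => Fin.insertNth (α := fun _ => V) p.1 (T₀ p.2) T) := by
      ext F
      simp only [mem_filter, mem_univ, true_and, mem_image]
      constructor
      · intro h
        exact ⟨p.1.removeNth F, by rw [← h]; exact Fin.insertNth_self_removeNth p.1 F⟩
      · rintro ⟨T, rfl⟩
        simp
    rw [this, card_image_of_injective]
    · simp
    · intro a b hab
      have := congrArg (fun F => p.1.removeNth F) hab
      simpa using this
  simp [h2]

end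

end Pool.Agent.Helper65.B54
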