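import Pool.Agent.Helper65.B54.Defs

/-!
# Turán density basics for `B_{5,4}`: monotonicity, near-regular extremal graphs
-/

namespace Pool.Agent.Helper65.B54

open Finset

section basics
variable {V U : Type} [DecidableEq V] [DecidableEq U]

theorem HasCopy.map {W : Type} {H : Finset (Finset W)} {G : Finset (Finset V)} (φ : V ↪ U)
    (G' : Finset (Finset U)) (h : HasCopy H G) (hG : ∀ e ∈ G, e.map φ ∈ G') : HasCopy H G' := by
  obtain ⟨f, hf, h1⟩ := h
  refine ⟨fun w => φ (f w), fun a b hab => hf (φ.injective hab), fun e he => ?_⟩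
  have := hG _ (h1 e he)
  rwa [Finset.map_eq_image, Finset.image_image] at this

end basics

/-- the set of achievable sizes is bounded -/
theorem ex_bdd (n : ℕ) :
    BddAbove {m | ∃ G : Finset (Finset (Fin n)), (∀ e ∈ G, e.card = 5) ∧
      ¬ HasCopy (book 5 4) G ∧ G.card = m} := by
  refine ⟨(univ : Finset (Finset (Fin n))).card, ?_⟩
  rintro m ⟨G, -, -, rfl⟩
  exact card_le_card (subset_univ _)

theorem free_empty (n : ℕ) : ¬ HasCopy (book 5 4) (∅ : Finset (Finset (Fin n))) := by
  rintro ⟨f, -, h⟩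
  exact absurd (h _ (mem_insert_self _ _)) (notMem_empty _)

theorem card_le_ex {n : ℕ} {G : Finset (Finset (Fin n))} (h : Free G) :
    G.card ≤ ex 5 (book 5 4) n :=
  le_csSup (ex_bdd n) ⟨G, h.1, h.2, rfl⟩

theorem exists_extremal (n : ℕ) :
    ∃ G : Finset (Finset (Fin n)), Free G ∧ G.card = ex 5 (book 5 4) n := by
  have hne : {m | ∃ G : Finset (Finset (Fin n)), (∀ e ∈ G, e.card = 5) ∧
      ¬ HasCopy (book 5 4) G ∧ G.card = m}.Nonempty :=
    ⟨0, ∅, by simp, free_empty n, by simp⟩
  obtain ⟨G, h1, h2, h3⟩ := Nat.sSup_mem hne (ex_bdd n)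
  exact ⟨G, ⟨h1, h2⟩, h3⟩

/-- degree of a vertex -/
def deg {V : Type} [DecidableEq V] (G : Finset (Finset V)) (v : V) : ℕ :=
  (G.filter (fun e => v ∈ e)).card

theorem sum_deg {V : Type} [DecidableEq V] [Fintype V] {G : Finset (Finset V)}
    (h : ∀ e ∈ G, e.card = 5) : ∑ v, deg G v = 5 * G.card := by
  unfold deg
  simp only [card_filter]
  rw [sum_comm]
  rw [mul_comm, card_eq_sum_ones, sum_mul]
  refine sum_congr rfl fun e he => ?_
  rw [← card_filter, one_mul, ← h e he]
  congr 1
  ext v; simp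

/-- vertex deletion -/
def delete {n : ℕ} (G : Finset (Finset (Fin (n + 1)))) (v : Fin (n + 1)) :
    Finset (Finset (Fin n)) :=
  univ.filter (fun e => e.map (Fin.succAboveEmb v) ∈ G)

theorem card_delete {n : ℕ} (G : Finset (Finset (Fin (n + 1)))) (v : Fin (n + 1)) :
    (delete G v).card + deg G v = G.card := by
  classical
  have h1 : (delete G v).card = (G.filter (fun e => v ∉ e)).card := by
    apply card_bij (fun e _ => e.map (Fin.succAboveEmb v))
    · intro e he
      rw [delete, mem_filter] at he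
      rw [mem_filter]
      refine ⟨he.2, ?_⟩
      rw [mem_map]
      rintro ⟨w, -, hw⟩
      exact Fin.succAbove_ne v w hw
    · intro a _ b _ hab
      exact map_injective _ hab
    · intro e he
      rw [mem_filter] at he
      refine ⟨univ.filter (fun w => v.succAbove w ∈ e), ?_, ?_⟩
      · rw [delete, mem_filter]
        refine ⟨mem_univ _, ?_⟩
        convert he.1
        ext w
        simp only [mem_map, mem_filter, mem_univ, true_and]
        constructor
        · rintro ⟨u, hu, rfl⟩; exact hu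
        · intro hw
          have hne : w ≠ v := fun h => he.2 (h ▸ hw)
          obtain ⟨u, hu⟩ := Fin.exists_succAbove_eq hne
          exact ⟨u, by rw [hu]; exact hw, hu⟩
      · ext w
        simp only [mem_map, mem_filter, mem_univ, true_and]
        constructor
        · rintro ⟨u, hu, rfl⟩; exact hu
        · intro hw
          have hne : w ≠ v := fun h => he.2 (h ▸ hw)
          obtain ⟨u, hu⟩ := Fin.exists_succAbove_eq hne
          exact ⟨u, by rw [hu]; exact hw, hu⟩
  rw [h1, deg, add_comm]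
  exact card_filter_add_card_filter_not _

theorem free_delete {n : ℕ} {G : Finset (Finset (Fin (n + 1)))} (h : Free G) (v : Fin (n + 1)) :
    Free (delete G v) := by
  constructor
  · intro e he
    rw [delete, mem_filter] at he
    have := h.1 _ he.2
    rwa [card_map] at this
  · intro hc
    refine h.2 (hc.map (Fin.succAboveEmb v) G fun e he => ?_)
    rw [delete, mem_filter] at he
    exact he.2

/-- minimum degree of extremal graphs -/
theorem ex_le_deg {n : ℕ} {G : Finset (Finset (Fin (n + 1)))} (h : Free G)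
    (hG : G.card = ex 5 (book 5 4) (n + 1)) (v : Fin (n + 1)) :
    ex 5 (book 5 4) (n + 1) ≤ ex 5 (book 5 4) n + deg G v := by
  have h1 := card_le_ex (free_delete h v)
  have h2 := card_delete G v
  omega

theorem ex_mono_ratio (n : ℕ) :
    (n + 1) * ex 5 (book 5 4) (n + 1) ≤ (n + 1) * ex 5 (book 5 4) n + 5 * ex 5 (book 5 4) (n + 1) := by
  obtain ⟨G, hf, hG⟩ := exists_extremal (n + 1)
  have h1 := sum_deg hf.1
  have h2 : ∑ v : Fin (n + 1), ex 5 (book 5 4) (n + 1) ≤
      ∑ v : Fin (n + 1), (ex 5 (book 5 4) n + deg G v) :=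
    sum_le_sum fun v _ => ex_le_deg hf hG v
  rw [sum_add_distrib, h1] at h2
  simp only [sum_const, card_univ, Fintype.card_fin, smul_eq_mul] at h2
  rw [hG] at h2
  linarith

/-- the density sequence -/
noncomputable def dens (n : ℕ) : ℝ := (ex 5 (book 5 4) n : ℝ) / (n.choose 5 : ℝ)

theorem dens_nonneg (n : ℕ) : 0 ≤ dens n := by unfold dens; positivity

theorem dens_antitone : ∀ n, 5 ≤ n → dens (n + 1) ≤ dens n := by
  intro n hn
  unfold dens
  have hc : 0 < n.choose 5 := Nat.choose_pos hn
  have hc' : 0 < (n + 1).choose 5 := Nat.choose_pos (by omega)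
  rw [div_le_div_iff₀ (by exact_mod_cast hc') (by exact_mod_cast hc)]
  have h1 := ex_mono_ratio n
  have h2 : (n + 1).choose 5 * (n + 1 - 5) = (n + 1) * n.choose 5 := by
    have h3 := Nat.choose_mul_succ_eq n 5
    linarith [h3]
  have h3 : (n + 1 - 5 : ℕ) * ex 5 (book 5 4) (n + 1) ≤ (n + 1) * ex 5 (book 5 4) n := by
    have : (n + 1 - 5 : ℕ) + 5 = n + 1 := by omega
    nlinarith
  have h4 : 0 < n + 1 - 5 := by omega
  have h5 : ex 5 (book 5 4) (n + 1) * n.choose 5 ≤ ex 5 (book 5 4) n * (n + 1).choose 5 := by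
    refine Nat.le_of_mul_le_mul_left ?_ h4
    calc (n + 1 - 5) * (ex 5 (book 5 4) (n + 1) * n.choose 5)
        = ((n + 1 - 5) * ex 5 (book 5 4) (n + 1)) * n.choose 5 := by ring
      _ ≤ ((n + 1) * ex 5 (book 5 4) n) * n.choose 5 := Nat.mul_le_mul_right _ h3
      _ = ex 5 (book 5 4) n * ((n + 1) * n.choose 5) := by ring
      _ = ex 5 (book 5 4) n * ((n + 1).choose 5 * (n + 1 - 5)) := by rw [h2]
      _ = (n + 1 - 5) * (ex 5 (book 5 4) n * (n + 1).choose 5) := by ring
  exact_mod_cast h5

theorem dens_anti {m n : ℕ} (hm : 5 ≤ m) (h : m ≤ n) : dens n ≤ dens m := by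
  induction n, h using Nat.le_induction with
  | base => exact le_rfl
  | succ k hk ih => exact (dens_antitone k (by omega)).trans ih

/-- The Turán density. -/
noncomputable def piB : ℝ := ⨅ n : ℕ, dens (n + 5)

theorem piB_le (n : ℕ) (hn : 5 ≤ n) : piB ≤ dens n := by
  have := ciInf_le (f := fun n : ℕ => dens (n + 5)) ⟨0, by rintro _ ⟨k, rfl⟩; exact dens_nonneg _⟩ (n - 5)
  simpa [piB, Nat.sub_add_cancel hn] using this

theorem tendsto_dens : Filter.Tendsto dens Filter.atTop (nhds piB) := by
  have h1 : Antitone (fun n : ℕ => dens (n + 5)) := antitone_nat_of_succ_le fun n => by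
    have := dens_antitone (n + 5) (by omega)
    convert this using 2
  have h2 := tendsto_atTop_ciInf h1 ⟨0, by rintro _ ⟨k, rfl⟩; exact dens_nonneg _⟩
  exact (Filter.tendsto_add_atTop_iff_nat 5).mp h2

theorem piB_nonneg : 0 ≤ piB := le_ciInf fun _ => dens_nonneg _

theorem piB_mul_le (n : ℕ) : piB * (n.choose 5 : ℝ) ≤ ex 5 (book 5 4) n := by
  rcases lt_or_ge n 5 with h | h
  · rw [Nat.choose_eq_zero_of_lt h]; simp
  · have h1 := piB_le n h
    unfold dens at h1
    have hc : (0 : ℝ) < n.choose 5 := by exact_mod_cast Nat.choose_pos h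
    rwa [le_div_iff₀ hc] at h1

/-- growth: for infinitely many `n` the increment is large -/
theorem exists_increment (ε : ℝ) (hε : 0 < ε) (n0 : ℕ) :
    ∃ n ≥ n0, (piB - ε) * (n.choose 4 : ℝ) ≤ (ex 5 (book 5 4) (n + 1) : ℝ) - ex 5 (book 5 4) n := by
  by_contra hcon
  push Not at hcon
  have h1 : ∀ n ≥ n0, (ex 5 (book 5 4) n : ℝ) ≤
      ex 5 (book 5 4) n0 + (piB - ε) * ((n.choose 5 : ℝ) - (n0.choose 5 : ℝ)) := by
    intro n hn
    induction n, hn using Nat.le_induction with
    | base => simp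
    | succ k hk ih =>
      have h2 := hcon k hk
      have h3 : ((k + 1).choose 5 : ℝ) = (k.choose 4 : ℝ) + (k.choose 5 : ℝ) := by
        exact_mod_cast Nat.choose_succ_succ k 4
      rw [h3]
      linarith
  have h2 : ∀ n ≥ n0, ε * (n.choose 5 : ℝ) ≤
      ex 5 (book 5 4) n0 - (piB - ε) * (n0.choose 5 : ℝ) := by
    intro n hn
    have := h1 n hn
    have := piB_mul_le n
    linarith
  have h3 : Filter.Tendsto (fun n : ℕ => ε * (n.choose 5 : ℝ)) Filter.atTop Filter.atTop := by
    apply Filter.Tendsto.const_mul_atTop hε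
    have h4 : ∀ n : ℕ, 5 ≤ n → (n : ℝ) - 4 ≤ (n.choose 5 : ℝ) := by
      intro n hn
      induction n, hn using Nat.le_induction with
      | base => norm_num
      | succ k hk ih =>
        have h5 : ((k + 1).choose 5 : ℝ) = (k.choose 4 : ℝ) + (k.choose 5 : ℝ) := by
          exact_mod_cast Nat.choose_succ_succ k 4
        have h6 : (1 : ℝ) ≤ k.choose 4 := by exact_mod_cast Nat.choose_pos (by omega)
        push_cast
        rw [h5]
        linarith
    refine Filter.tendsto_atTop_mono' _ ?_ (Filter.tendsto_atTop_add_const_right _ (-4 : ℝ)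
      tendsto_natCast_atTop_atTop)
    filter_upwards [Filter.eventually_ge_atTop 5] with n hn
    have := h4 n hn
    linarith
  obtain ⟨n, hn1, hn2⟩ := ((h3.eventually (Filter.eventually_gt_atTop
    (ex 5 (book 5 4) n0 - (piB - ε) * (n0.choose 5 : ℝ)))).and
      (Filter.eventually_ge_atTop n0)).exists
  exact absurd (h2 n hn2) (not_le.mpr hn1)

/-- Near-regular free graphs: for every `ε > 0` there are arbitrarily large `n` and free graphs on
`n + 1` vertices all of whose degrees are at least `(π - ε) C(n, 4)` and with at most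
`(π + ε) C(n + 1, 5)` edges. -/
theorem exists_near_regular (ε : ℝ) (hε : 0 < ε) (n0 : ℕ) :
    ∃ n ≥ n0, ∃ G : Finset (Finset (Fin (n + 1))), Free G ∧
      (∀ v, (piB - ε) * (n.choose 4 : ℝ) ≤ deg G v) ∧
      (G.card : ℝ) ≤ (piB + ε) * ((n + 1).choose 5 : ℝ) := by
  have h1 := (tendsto_dens.eventually (gt_mem_nhds (show piB < piB + ε by linarith)))
  rw [Filter.eventually_atTop] at h1
  obtain ⟨n1, hn1⟩ := h1
  obtain ⟨n, hn, hinc⟩ := exists_increment ε hε (max n0 (max n1 5))
  have hn0 : n0 ≤ n := le_trans (le_max_left _ _) hn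
  have hn1' : n1 ≤ n := le_trans (le_trans (le_max_left _ _) (le_max_right _ _)) hn
  have hn5 : 5 ≤ n := le_trans (le_trans (le_max_right _ _) (le_max_right _ _)) hn
  obtain ⟨G, hf, hG⟩ := exists_extremal (n + 1)
  refine ⟨n, hn0, G, hf, fun v => ?_, ?_⟩
  · have := ex_le_deg hf hG v
    have h2 : (ex 5 (book 5 4) (n + 1) : ℝ) ≤ ex 5 (book 5 4) n + deg G v := by exact_mod_cast this
    linarith
  · have h2 := hn1 (n + 1) (by omega)
    unfold dens at h2
    have hc : (0 : ℝ) < (n + 1).choose 5 := by exact_mod_cast Nat.choose_pos (by omega)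
    rw [div_lt_iff₀ hc] at h2
    rw [hG]
    exact h2.le

end Pool.Agent.Helper65.B54
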